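import Mathlib

/-!
# Contractions with a common centre: definitions
-/

set_option autoImplicit false
set_option linter.unusedSectionVars false

namespace Pool.Agent.KneserCentre

open MeasureTheory Set Filter Topology Metric
open scoped InnerProductSpace

/-- `sinh x / x`, extended by `1` at `0`. -/
noncomputable def sc (x : ℝ) : ℝ := if x = 0 then 1 else Real.sinh x / x

/-- The derivative with respect to `s` of `(P i).eval (exp s)`. -/
noncomputable def dP (P : Polynomial ℝ) (s : ℝ) : ℝ :=
  Real.exp s * (Polynomial.derivative P).eval (Real.exp s)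

/-- Mixed second derivative of `∏ l, (P l).eval (exp (y l))`, replaced by `0` on the diagonal. -/
noncomputable def mix {ι : Type*} [Fintype ι] [DecidableEq ι] (P : ι → Polynomial ℝ) (i j : ι)
    (y : ι → ℝ) : ℝ :=
  if i = j then 0 else dP (P i) (y i) * dP (P j) (y j) *
    ∏ l ∈ (Finset.univ.erase i).erase j, (P l).eval (Real.exp (y l))

/-- Number of indices `i` with `‖x - p i‖ ^ 2 ≤ c i`. -/
noncomputable def cnt2 {V : Type*} [NormedAddCommGroup V] {n : ℕ} (p : Fin n → V) (c : Fin n → ℝ)
    (x : V) : ℕ :=
  (Finset.univ.filter (fun i => ‖x - p i‖ ^ 2 ≤ c i)).card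

end Pool.Agent.KneserCentre
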