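import Pool.Agent.KneserCentre.Defs
import Pool.Agent.Kneser.Main

/-!
# Slicing, and the weighted inequality

PROOF. If finrank U ≤ 2 use weighted_of_planar (Pool/Agent/Kneser/Main). Let finrank U = 3. Put
p' i := p i - a, q' i := q i - b; translations preserve the volume, so the claim is the same for
p', q'. Decompose p' i = P i + w i, q' i = Q i + w i with P i, Q i ∈ U and the same w i ∈ Uᗮ
(q' i - p' i ∈ U). ‖q' i‖ = ‖p' i‖ gives ‖Q i‖ = ‖P i‖, and dist (Q i) (Q j) ≤ dist (P i) (P j)
by Pythagoras. By Submodule.measurableEquivProd / orthogonalDecomposition with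
WithLp.volume_preserving_ofLp (all measure preserving) and Fubini,
∫ x : E, min (num p' ρ x) m = ∫ z : Uᗮ, ∫ x : U, min (cnt2 P (fun i => ρ i ^ 2 - ‖z - w i‖ ^ 2) x) m
and the same for q', because ‖x + z - p' i‖ ^ 2 = ‖x - P i‖ ^ 2 + ‖z - w i‖ ^ 2. With H for every z
and integral_mono: for every m,
∑ k ∈ range m, lev q ρ k ≤ ∑ k ∈ range m, lev p ρ k (min_eq_sum, lev in Kneser/Weighted, see
integral_trunc there for the pattern), and the conclusion follows with sum_lev and abel_sum exactly
as in weighted_of_J (Kneser/Weighted). All functions are bounded, measurable and vanish outside a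
ball.
-/

set_option autoImplicit false
set_option linter.unusedSectionVars false

namespace Pool.Agent.KneserCentre

open MeasureTheory Set Filter Topology Metric Module
open scoped InnerProductSpace
open Pool.Agent.Kneser

section

variable {E : Type*} [NormedAddCommGroup E] [InnerProductSpace ℝ E] [FiniteDimensional ℝ E]
  [MeasurableSpace E] [BorelSpace E]

/-- Splitting off the subspace `U`, as a measurable equivalence. -/
noncomputable def sliceEquiv (U : Submodule ℝ E) : E ≃ᵐ U × Uᗮ :=
  U.orthogonalDecomposition.toHomeomorph.toMeasurableEquiv.trans (MeasurableEquiv.toLp 2 _).symm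

theorem sliceEquiv_symm_apply (U : Submodule ℝ E) (z : U × Uᗮ) :
    (sliceEquiv U).symm z = (z.1 : E) + z.2 := by
  simp [sliceEquiv]

theorem measurePreserving_sliceEquiv (U : Submodule ℝ E) :
    MeasurePreserving (sliceEquiv U) (volume : Measure E) (volume : Measure (U × Uᗮ)) :=
  U.orthogonalDecomposition.measurePreserving.trans (WithLp.volume_preserving_ofLp _ _)

theorem integrable_slice (U : Submodule ℝ E) (a : E) {f : E → ℝ} (hf : Integrable f) :
    Integrable (fun z : U × Uᗮ => f ((z.1 : E) + z.2 + a))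
      ((volume : Measure U).prod (volume : Measure Uᗮ)) := by
  have h1 : Integrable (fun x => f (x + a)) := hf.comp_add_right a
  have h2 := ((measurePreserving_sliceEquiv U).symm _).integrable_comp_emb
    (sliceEquiv U).symm.measurableEmbedding (g := fun x => f (x + a))
  have h3 := h2.2 h1
  refine h3.congr (Filter.Eventually.of_forall fun z => ?_)
  simp only [Function.comp_apply, sliceEquiv_symm_apply]

theorem integral_slice (U : Submodule ℝ E) (a : E) {f : E → ℝ} (hf : Integrable f) :
    ∫ x, f x = ∫ z : Uᗮ, ∫ x : U, f ((x : E) + z + a) := by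
  rw [← integral_add_right_eq_self f a]
  have h2 := ((measurePreserving_sliceEquiv U).symm _).integral_comp
    (sliceEquiv U).symm.measurableEmbedding (fun x => f (x + a))
  rw [← h2]
  have h3 := integral_prod_symm (μ := (volume : Measure U)) (ν := (volume : Measure Uᗮ))
    (fun z : U × Uᗮ => f ((z.1 : E) + z.2 + a)) (integrable_slice U a hf)
  rw [← h3]
  refine integral_congr_ae (Filter.Eventually.of_forall fun z => ?_)
  simp only [sliceEquiv_symm_apply]

theorem integral_slice_le (U : Submodule ℝ E) (a b : E) {f g : E → ℝ} (hf : Integrable f)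
    (hg : Integrable g)
    (h : ∀ z : Uᗮ, ∫ x : U, f ((x : E) + z + a) ≤ ∫ x : U, g ((x : E) + z + b)) :
    ∫ x, f x ≤ ∫ x, g x := by
  rw [integral_slice U a hf, integral_slice U b hg]
  exact integral_mono (integrable_slice U a hf).integral_prod_right
    (integrable_slice U b hg).integral_prod_right h

theorem norm_slice_sq (U : Submodule ℝ E) (x : U) (z : Uᗮ) (v : E) :
    ‖(x : E) + z - v‖ ^ 2 = ‖x - U.orthogonalProjectionOnto v‖ ^ 2 +
      ‖z - Uᗮ.orthogonalProjectionOnto v‖ ^ 2 := by
  rw [Submodule.norm_sq_eq_add_norm_sq_projection _ U]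
  simp only [map_add, map_sub, Submodule.orthogonalProjectionOnto_mem_subspace_eq_self]
  rw [Submodule.orthogonalProjectionOnto_apply_of_mem_orthogonal z.2,
    Submodule.orthogonalProjectionOnto_orthogonal_apply_eq_zero x.2, add_zero, zero_add]

theorem integrable_min_num {n : ℕ} (p : Fin n → E) (ρ : Fin n → ℝ) (m : ℕ) :
    Integrable (fun x => ((min (num p ρ x) m : ℕ) : ℝ)) := by
  simp only [min_eq_sum]
  refine integrable_finsetSum _ fun k _ => ?_
  have h1 : (fun x => if k + 1 ≤ num p ρ x then (1 : ℝ) else 0) =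
      {x : E | k + 1 ≤ num p ρ x}.indicator (fun _ => (1 : ℝ)) := by
    funext x
    simp only [indicator_apply, mem_ofPred_eq]
  rw [h1, integrable_indicator_iff (measurableSet_lev p ρ k)]
  exact integrableOn_const (finite_lev p ρ k).ne

theorem integral_min_num {n : ℕ} (p : Fin n → E) (ρ : Fin n → ℝ) (m : ℕ) :
    ∫ x, ((min (num p ρ x) m : ℕ) : ℝ) = ∑ k ∈ Finset.range m, lev p ρ k := by
  simp only [min_eq_sum]
  have h1 : ∀ k, (fun x => if k + 1 ≤ num p ρ x then (1 : ℝ) else 0) =
      {x : E | k + 1 ≤ num p ρ x}.indicator (fun _ => (1 : ℝ)) := by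
    intro k
    funext x
    simp only [indicator_apply, mem_ofPred_eq]
  rw [integral_finsetSum]
  · refine Finset.sum_congr rfl fun k _ => ?_
    rw [h1, integral_indicator (measurableSet_lev p ρ k)]
    simp [lev, Measure.real]
  · intro k _
    rw [h1, integrable_indicator_iff (measurableSet_lev p ρ k)]
    exact integrableOn_const (finite_lev p ρ k).ne

theorem num_slice (U : Submodule ℝ E) {n : ℕ} (p : Fin n → E) (ρ : Fin n → ℝ)
    (hρ : ∀ i, 0 ≤ ρ i) (a : E) (x : U) (z : Uᗮ) :
    num p ρ ((x : E) + z + a) = cnt2 (fun i => U.orthogonalProjectionOnto (p i - a))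
      (fun i => ρ i ^ 2 - ‖z - Uᗮ.orthogonalProjectionOnto (p i - a)‖ ^ 2) x := by
  unfold num cnt2
  congr 1
  refine Finset.filter_congr fun i _ => ?_
  rw [dist_eq_norm, ← sq_le_sq₀ (norm_nonneg _) (hρ i)]
  have h1 : (x : E) + z + a - p i = (x : E) + z - (p i - a) := by abel
  rw [h1, norm_slice_sq]
  constructor <;> intro h <;> linarith

end

/-- If the truncated inequality holds in all three-dimensional spaces for configurations with
common centre `0` and arbitrary real squared radii, then the weighted inequality holds for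
contractions with a common centre whose displacements span at most three dimensions. -/
theorem weighted_of_space {E : Type*} [NormedAddCommGroup E] [InnerProductSpace ℝ E]
    [FiniteDimensional ℝ E] [MeasurableSpace E] [BorelSpace E] {n : ℕ}
    (H : ∀ (U : Submodule ℝ E), finrank ℝ U = 3 → ∀ (m : ℕ) (p q : Fin n → U) (c : Fin n → ℝ),
      (∀ i, ‖q i‖ = ‖p i‖) → (∀ i j, dist (q i) (q j) ≤ dist (p i) (p j)) →
      ∫ x : U, ((min (cnt2 q c x) m : ℕ) : ℝ) ≤ ∫ x : U, ((min (cnt2 p c x) m : ℕ) : ℝ))
    (p q : Fin n → E) (ρ τ : Fin n → ℝ)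
    (h : ∀ i j, dist (q i) (q j) ≤ dist (p i) (p j)) (hρ : ∀ i, 0 ≤ ρ i) (hτ : Antitone τ)
    (U : Submodule ℝ E) (hU : finrank ℝ U ≤ 3) (a b : E)
    (hd : ∀ i, (q i - b) - (p i - a) ∈ U) (hn : ∀ i, dist (q i) b = dist (p i) a) :
    ∑ k : Fin n, τ k * (volume {x : E | k.val + 1 ≤ num q ρ x}).toReal ≤
      ∑ k : Fin n, τ k * (volume {x : E | k.val + 1 ≤ num p ρ x}).toReal := by
  rcases Nat.lt_or_ge (finrank ℝ U) 3 with hU3 | hU3
  · refine weighted_of_planar p q ρ τ h hρ hτ U (by omega) fun i j => ?_
    have h1 := U.sub_mem (hd i) (hd j)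
    have h2 : (q i - b) - (p i - a) - ((q j - b) - (p j - a)) = (q i - p i) - (q j - p j) := by
      abel
    rwa [h2] at h1
  have hU' : finrank ℝ U = 3 := le_antisymm hU hU3
  have hw : ∀ i, Uᗮ.orthogonalProjectionOnto (q i - b) =
      Uᗮ.orthogonalProjectionOnto (p i - a) := by
    intro i
    have h1 := Submodule.orthogonalProjectionOnto_orthogonal_apply_eq_zero (hd i)
    rw [map_sub] at h1
    exact sub_eq_zero.1 h1
  have hnorm : ∀ i, ‖U.orthogonalProjectionOnto (q i - b)‖ =
      ‖U.orthogonalProjectionOnto (p i - a)‖ := by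
    intro i
    have h1 := Submodule.norm_sq_eq_add_norm_sq_projection (q i - b) U
    have h2 := Submodule.norm_sq_eq_add_norm_sq_projection (p i - a) U
    have h3 : ‖q i - b‖ = ‖p i - a‖ := by
      rw [← dist_eq_norm, ← dist_eq_norm]
      exact hn i
    rw [hw i, h3] at h1
    rw [← sq_eq_sq₀ (norm_nonneg _) (norm_nonneg _)]
    linarith
  have hdist : ∀ i j, dist (U.orthogonalProjectionOnto (q i - b))
      (U.orthogonalProjectionOnto (q j - b)) ≤
      dist (U.orthogonalProjectionOnto (p i - a)) (U.orthogonalProjectionOnto (p j - a)) := by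
    intro i j
    have h1 := Submodule.norm_sq_eq_add_norm_sq_projection ((q i - b) - (q j - b)) U
    have h2 := Submodule.norm_sq_eq_add_norm_sq_projection ((p i - a) - (p j - a)) U
    have h3 : ‖(q i - b) - (q j - b)‖ ≤ ‖(p i - a) - (p j - a)‖ := by
      rw [sub_sub_sub_cancel_right, sub_sub_sub_cancel_right, ← dist_eq_norm, ← dist_eq_norm]
      exact h i j
    have h4 := pow_le_pow_left₀ (norm_nonneg _) h3 2
    simp only [map_sub] at h1 h2 h4 ⊢
    have h5 : Uᗮ.orthogonalProjectionOnto (q i) - Uᗮ.orthogonalProjectionOnto b -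
        (Uᗮ.orthogonalProjectionOnto (q j) - Uᗮ.orthogonalProjectionOnto b) =
        Uᗮ.orthogonalProjectionOnto (p i) - Uᗮ.orthogonalProjectionOnto a -
        (Uᗮ.orthogonalProjectionOnto (p j) - Uᗮ.orthogonalProjectionOnto a) := by
      have h6 := hw i
      have h7 := hw j
      rw [map_sub, map_sub] at h6 h7
      rw [h6, h7]
    rw [h5] at h1
    rw [dist_eq_norm, dist_eq_norm, ← sq_le_sq₀ (norm_nonneg _) (norm_nonneg _)]
    linarith
  have h1 : ∀ m : ℕ, ∑ k ∈ Finset.range m, lev q ρ k ≤ ∑ k ∈ Finset.range m, lev p ρ k := by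
    intro m
    rw [← integral_min_num, ← integral_min_num]
    refine integral_slice_le U b a (integrable_min_num q ρ m) (integrable_min_num p ρ m)
      fun z => ?_
    have h2 := H U hU' m (fun i => U.orthogonalProjectionOnto (p i - a))
      (fun i => U.orthogonalProjectionOnto (q i - b))
      (fun i => ρ i ^ 2 - ‖z - Uᗮ.orthogonalProjectionOnto (p i - a)‖ ^ 2) hnorm hdist
    have h3 : ∀ x : U, num q ρ ((x : E) + z + b) =
        cnt2 (fun i => U.orthogonalProjectionOnto (q i - b))
          (fun i => ρ i ^ 2 - ‖z - Uᗮ.orthogonalProjectionOnto (p i - a)‖ ^ 2) x := by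
      intro x
      rw [num_slice U q ρ hρ b x z]
      simp only [hw]
    simp only [h3, num_slice U p ρ hρ a]
    exact h2
  have h2 : ∑ k ∈ Finset.range n, lev q ρ k = ∑ k ∈ Finset.range n, lev p ρ k := by
    rw [sum_lev q ρ hρ, sum_lev p ρ hρ]
  have h3 := abel_sum (fun k => if h : k < n then τ ⟨k, h⟩ else 0) (lev p ρ) (lev q ρ) n
    (fun k hk => by
      have hk' : k < n := by omega
      simp only [hk, hk', dif_pos]
      exact hτ (by simp [Fin.le_def])) h1 h2
  rw [Finset.sum_range, Finset.sum_range] at h3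
  simpa [lev] using h3

end Pool.Agent.KneserCentre
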