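import Pool.Agent.KneserCentre.Defs

/-!
# From spheres to space

PROOF (σ = toSphere of the volume, ν = Measure.volumeIoiPow 2). f x := φ (cnt2 p c x) is bounded,
measurable and vanishes outside a ball (φ 0 = 0), hence integrable; the same for q. With
Measure.measurePreserving_homeomorphUnitSphereProd (see the proof of integral_fun_norm_addHaar in
Mathlib: integral_subtype_comap, restrict_compl_singleton) and Fubini (integral_prod_symm or
integral_prod after Prod.swap), ∫ x, f x = ∫ r ∂ν, ∫ u ∂σ, f (r • u), so by integral_mono_ae it is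
enough to compare the inner integrals for ν-almost every r > 0. For r > 0 put
t i := (r ^ 2 + ‖p i‖ ^ 2 - c i) / (2 * r); the same number for q because ‖q i‖ = ‖p i‖. Then
‖r • u - p i‖ ^ 2 = r ^ 2 - 2 r ⟪p i, u⟫ + ‖p i‖ ^ 2 ≤ c i iff t i ≤ ⟪p i, u⟫, so H t is the
inequality, provided that ⟪p i, u⟫ ≠ t i, i.e. ‖r • u - p i‖ ^ 2 ≠ c i, for σ-almost every u (and
the same for q). The set {x | ‖x - p i‖ ^ 2 = c i} is null (a sphere, a point or empty:
Measure.addHaar_sphere), so by measure preservation and Fubini (Measure.ae_ae_of_ae_prod, after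
Prod.swap) this holds for ν-almost every r.
-/

set_option autoImplicit false
set_option linter.unusedSectionVars false

namespace Pool.Agent.KneserCentre

open MeasureTheory Set Filter Topology Metric
open scoped InnerProductSpace

variable {V : Type*} [NormedAddCommGroup V] [InnerProductSpace ℝ V] [FiniteDimensional ℝ V]
  [MeasurableSpace V] [BorelSpace V]

private theorem space_polar_mp : MeasurePreserving
    (fun z : sphere (0 : V) 1 × Ioi (0 : ℝ) =>
      ((homeomorphUnitSphereProd V).symm z : ({(0 : V)}ᶜ : Set V)))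
    ((volume : Measure V).toSphere.prod (Measure.volumeIoiPow (Module.finrank ℝ V - 1)))
    ((volume : Measure V).comap (Subtype.val : ({(0 : V)}ᶜ : Set V) → V)) := by
  have h := (volume : Measure V).measurePreserving_homeomorphUnitSphereProd
  exact MeasurePreserving.symm (homeomorphUnitSphereProd V).toMeasurableEquiv h

private theorem space_symm_coe (z : sphere (0 : V) 1 × Ioi (0 : ℝ)) :
    (((homeomorphUnitSphereProd V).symm z : ({(0 : V)}ᶜ : Set V)) : V) = (z.2 : ℝ) • (z.1 : V) :=
  homeomorphUnitSphereProd_symm_apply_coe V z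

private theorem space_polar_int [Nontrivial V] {f : V → ℝ} (hf : Integrable f) :
    Integrable (fun z : sphere (0 : V) 1 × Ioi (0 : ℝ) => f ((z.2 : ℝ) • (z.1 : V)))
      ((volume : Measure V).toSphere.prod (Measure.volumeIoiPow (Module.finrank ℝ V - 1))) ∧
    ∫ x, f x = ∫ z : sphere (0 : V) 1 × Ioi (0 : ℝ), f ((z.2 : ℝ) • (z.1 : V))
      ∂(volume : Measure V).toSphere.prod (Measure.volumeIoiPow (Module.finrank ℝ V - 1)) := by
  have hS : MeasurableSet ({(0 : V)}ᶜ : Set V) := (measurableSet_singleton _).compl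
  have h := space_polar_mp (V := V)
  have he : MeasurableEmbedding (fun z : sphere (0 : V) 1 × Ioi (0 : ℝ) =>
      ((homeomorphUnitSphereProd V).symm z : ({(0 : V)}ᶜ : Set V))) :=
    Homeomorph.measurableEmbedding (homeomorphUnitSphereProd V).symm
  constructor
  · have h1 : Integrable (f ∘ (Subtype.val : ({(0 : V)}ᶜ : Set V) → V))
        ((volume : Measure V).comap (Subtype.val : ({(0 : V)}ᶜ : Set V) → V)) := by
      rw [← integrableOn_iff_comap_subtypeVal hS]
      exact hf.integrableOn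
    have h2 := (h.integrable_comp_emb he
      (g := f ∘ (Subtype.val : ({(0 : V)}ᶜ : Set V) → V))).2 h1
    refine h2.congr (Filter.Eventually.of_forall fun z => ?_)
    simp only [Function.comp_apply, space_symm_coe]
  · have h3 := h.integral_comp he (f ∘ (Subtype.val : ({(0 : V)}ᶜ : Set V) → V))
    simp only [Function.comp_apply, space_symm_coe] at h3
    rw [h3, integral_subtype_comap hS f, restrict_compl_singleton]

private theorem space_polar_ae [Nontrivial V] {P : V → Prop}
    (hP : ∀ᵐ x ∂(volume : Measure V), P x) :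
    ∀ᵐ r : Ioi (0 : ℝ) ∂(Measure.volumeIoiPow (Module.finrank ℝ V - 1)),
      ∀ᵐ u : sphere (0 : V) 1 ∂(volume : Measure V).toSphere, P ((r : ℝ) • (u : V)) := by
  have hS : MeasurableSet ({(0 : V)}ᶜ : Set V) := (measurableSet_singleton _).compl
  have h1 : ∀ᵐ y : ({(0 : V)}ᶜ : Set V)
      ∂((volume : Measure V).comap (Subtype.val : ({(0 : V)}ᶜ : Set V) → V)), P (y : V) :=
    (measurePreserving_subtype_coe (μa := (volume : Measure V)) hS).quasiMeasurePreserving.ae
      (ae_restrict_of_ae hP)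
  have h2 := (space_polar_mp (V := V)).quasiMeasurePreserving.ae h1
  simp only [space_symm_coe] at h2
  have h3 := (Measure.measurePreserving_swap
    (μ := Measure.volumeIoiPow (Module.finrank ℝ V - 1))
    (ν := (volume : Measure V).toSphere)).quasiMeasurePreserving.ae h2
  exact Measure.ae_ae_of_ae_prod h3

private theorem space_ne_sphere [Nontrivial V] (p : V) (c : ℝ) :
    ∀ᵐ x ∂(volume : Measure V), ‖x - p‖ ^ 2 ≠ c := by
  rw [ae_iff]
  refine measure_mono_null ?_ (Measure.addHaar_sphere (volume : Measure V) p (Real.sqrt c))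
  intro x hx
  have hx' : ‖x - p‖ ^ 2 = c := by
    by_contra h
    exact hx h
  rw [mem_sphere, dist_eq_norm, ← hx', Real.sqrt_sq (norm_nonneg _)]

private theorem space_measurable_cnt2 {n : ℕ} (p : Fin n → V) (c : Fin n → ℝ) :
    Measurable (cnt2 p c) := by
  have h : cnt2 p c = fun x => ∑ i, if ‖x - p i‖ ^ 2 ≤ c i then 1 else 0 := by
    funext x
    unfold cnt2
    rw [Finset.card_filter]
  rw [h]
  refine Finset.measurable_sum _ fun i _ => ?_
  refine Measurable.ite (measurableSet_le ?_ measurable_const) measurable_const measurable_const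
  exact ((continuous_id.sub continuous_const).norm.pow 2).measurable

private theorem space_integrable {n : ℕ} (p : Fin n → V) (c : Fin n → ℝ) (φ : ℕ → ℝ)
    (hφ0 : φ 0 = 0) : Integrable (fun x => φ (cnt2 p c x)) := by
  have hm : Measurable fun x => φ (cnt2 p c x) :=
    (measurable_from_top (f := φ)).comp (space_measurable_cnt2 p c)
  have hb : ∀ x, ‖φ (cnt2 p c x)‖ ≤ ∑ j ∈ Finset.range (n + 1), |φ j| := by
    intro x
    have hc : cnt2 p c x < n + 1 := by
      refine Nat.lt_succ_of_le ?_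
      unfold cnt2
      exact (Finset.card_le_univ _).trans (by simp)
    rw [Real.norm_eq_abs]
    exact Finset.single_le_sum (f := fun j => |φ j|) (fun j _ => abs_nonneg _)
      (Finset.mem_range.2 hc)
  have hs : Function.support (fun x => φ (cnt2 p c x)) ⊆
      ⋃ i, closedBall (p i) (Real.sqrt (c i)) := by
    intro x hx
    have h0 : cnt2 p c x ≠ 0 := by
      intro h0
      apply hx
      simp only [h0, hφ0]
    unfold cnt2 at h0
    obtain ⟨i, hi⟩ := Finset.card_pos.1 (Nat.pos_of_ne_zero h0)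
    have hi' := (Finset.mem_filter.1 hi).2
    refine mem_iUnion.2 ⟨i, ?_⟩
    rw [mem_closedBall, dist_eq_norm]
    exact Real.le_sqrt_of_sq_le hi'
  rw [← integrableOn_iff_integrable_of_support_subset hs]
  refine Measure.integrableOn_of_bounded ?_ hm.aestronglyMeasurable
    (Filter.Eventually.of_forall hb)
  exact ((isCompact_iUnion fun i => isCompact_closedBall _ _).measure_lt_top).ne

private theorem space_iff {r : ℝ} (hr : 0 < r) (u : sphere (0 : V) 1) (p : V) (c : ℝ) :
    (‖r • (u : V) - p‖ ^ 2 ≤ c ↔ (r ^ 2 + ‖p‖ ^ 2 - c) / (2 * r) ≤ ⟪p, (u : V)⟫_ℝ) ∧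
    (⟪p, (u : V)⟫_ℝ = (r ^ 2 + ‖p‖ ^ 2 - c) / (2 * r) → ‖r • (u : V) - p‖ ^ 2 = c) := by
  have hu : ‖(u : V)‖ = 1 := by simp
  have h1 : ‖r • (u : V) - p‖ ^ 2 = r ^ 2 - 2 * (r * ⟪p, (u : V)⟫_ℝ) + ‖p‖ ^ 2 := by
    rw [norm_sub_sq_real, norm_smul, hu, real_inner_smul_left, real_inner_comm, mul_one,
      Real.norm_eq_abs, sq_abs]
  constructor
  · rw [h1, div_le_iff₀ (by linarith)]
    constructor <;> intro h <;> nlinarith
  · intro h
    rw [h1, h]
    field_simp
    ring

/-- Polar coordinates: an inequality on almost all spheres gives the inequality in space. -/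
theorem space_le (hV : Module.finrank ℝ V = 3) {n : ℕ} (p q : Fin n → V) (c : Fin n → ℝ)
    (φ : ℕ → ℝ) (hφ0 : φ 0 = 0) (hnorm : ∀ i, ‖q i‖ = ‖p i‖)
    (H : ∀ t : Fin n → ℝ,
      (∀ i, ∀ᵐ u : sphere (0 : V) 1 ∂(volume : Measure V).toSphere, ⟪p i, (u : V)⟫_ℝ ≠ t i) →
      (∀ i, ∀ᵐ u : sphere (0 : V) 1 ∂(volume : Measure V).toSphere, ⟪q i, (u : V)⟫_ℝ ≠ t i) →
      ∫ u : sphere (0 : V) 1, φ (Finset.univ.filter (fun i => t i ≤ ⟪q i, (u : V)⟫_ℝ)).card
          ∂(volume : Measure V).toSphere ≤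
        ∫ u : sphere (0 : V) 1, φ (Finset.univ.filter (fun i => t i ≤ ⟪p i, (u : V)⟫_ℝ)).card
          ∂(volume : Measure V).toSphere) :
    ∫ x, φ (cnt2 q c x) ≤ ∫ x, φ (cnt2 p c x) := by
  have hVn : Nontrivial V := Module.nontrivial_of_finrank_pos (R := ℝ) (by omega)
  obtain ⟨hp1, hp2⟩ := space_polar_int (space_integrable p c φ hφ0)
  obtain ⟨hq1, hq2⟩ := space_polar_int (space_integrable q c φ hφ0)
  rw [hp2, hq2, integral_prod_symm _ hp1, integral_prod_symm _ hq1]
  have hpne : ∀ᵐ x ∂(volume : Measure V), ∀ i, ‖x - p i‖ ^ 2 ≠ c i :=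
    ae_all_iff.2 fun i => space_ne_sphere (p i) (c i)
  have hqne : ∀ᵐ x ∂(volume : Measure V), ∀ i, ‖x - q i‖ ^ 2 ≠ c i :=
    ae_all_iff.2 fun i => space_ne_sphere (q i) (c i)
  refine integral_mono_ae hq1.integral_prod_right hp1.integral_prod_right ?_
  filter_upwards [space_polar_ae hpne, space_polar_ae hqne] with r hrp hrq
  have hr : (0 : ℝ) < (r : ℝ) := r.2
  have e1 : ∀ u : sphere (0 : V) 1, cnt2 p c ((r : ℝ) • (u : V)) =
      (Finset.univ.filter (fun i => ((r : ℝ) ^ 2 + ‖p i‖ ^ 2 - c i) / (2 * (r : ℝ)) ≤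
        ⟪p i, (u : V)⟫_ℝ)).card := by
    intro u
    unfold cnt2
    congr 1
    exact Finset.filter_congr fun i _ => (space_iff hr u (p i) (c i)).1
  have e2 : ∀ u : sphere (0 : V) 1, cnt2 q c ((r : ℝ) • (u : V)) =
      (Finset.univ.filter (fun i => ((r : ℝ) ^ 2 + ‖p i‖ ^ 2 - c i) / (2 * (r : ℝ)) ≤
        ⟪q i, (u : V)⟫_ℝ)).card := by
    intro u
    unfold cnt2
    congr 1
    refine Finset.filter_congr fun i _ => ?_
    rw [← hnorm i]
    exact (space_iff hr u (q i) (c i)).1
  simp only [e1, e2]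
  refine H (fun i => ((r : ℝ) ^ 2 + ‖p i‖ ^ 2 - c i) / (2 * (r : ℝ))) ?_ ?_
  · intro i
    filter_upwards [hrp] with u hu h
    exact hu i ((space_iff hr u (p i) (c i)).2 h)
  · intro i
    filter_upwards [hrq] with u hu h
    refine hu i ((space_iff hr u (q i) (c i)).2 ?_)
    rw [hnorm i]
    exact h

end Pool.Agent.KneserCentre
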