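import Pool.Agent.KneserCentre.Sphere
import Pool.Agent.KneserCentre.Space
import Pool.Agent.KneserCentre.Slice

/-!
# Kneser's weighted inequality for contractions with a common centre
-/

set_option autoImplicit false
set_option linter.unusedSectionVars false

namespace Pool.Agent.KneserCentre

open MeasureTheory Set Filter Topology Metric Module
open scoped InnerProductSpace
open Pool.Agent.Kneser

theorem concave_min (m k : ℕ) : ((min (k + 2) m : ℕ) : ℝ) - 2 * ((min (k + 1) m : ℕ) : ℝ) +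
    ((min k m : ℕ) : ℝ) ≤ 0 := by
  have h : min (k + 2) m + min k m ≤ 2 * min (k + 1) m := by omega
  have h' : ((min (k + 2) m : ℕ) : ℝ) + ((min k m : ℕ) : ℝ) ≤ 2 * ((min (k + 1) m : ℕ) : ℝ) := by
    exact_mod_cast h
  linarith

theorem trunc_le {V : Type*} [NormedAddCommGroup V] [InnerProductSpace ℝ V]
    [FiniteDimensional ℝ V] [MeasurableSpace V] [BorelSpace V] (hV : finrank ℝ V = 3) {n : ℕ}
    (m : ℕ) (p q : Fin n → V) (c : Fin n → ℝ) (hn : ∀ i, ‖q i‖ = ‖p i‖)
    (h : ∀ i j, dist (q i) (q j) ≤ dist (p i) (p j)) :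
    ∫ x, ((min (cnt2 q c x) m : ℕ) : ℝ) ≤ ∫ x, ((min (cnt2 p c x) m : ℕ) : ℝ) := by
  refine space_le hV p q c (fun k => ((min k m : ℕ) : ℝ)) (by simp) hn fun t hp0 hq0 => ?_
  refine sphere_step hV (fun k => ((min k m : ℕ) : ℝ)) (concave_min m) p q hn ?_ t hp0 hq0
  intro i j
  have h1 := h i j
  rw [dist_eq_norm, dist_eq_norm] at h1
  have h2 : ‖q i - q j‖ ^ 2 ≤ ‖p i - p j‖ ^ 2 := by gcongr
  rw [norm_sub_sq_real, norm_sub_sq_real, hn i, hn j] at h2
  linarith

/-- Kneser's weighted inequality for contractions with a common centre whose displacements span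
at most three dimensions. -/
theorem weighted_of_centre {E : Type*} [NormedAddCommGroup E] [InnerProductSpace ℝ E]
    [FiniteDimensional ℝ E] [MeasurableSpace E] [BorelSpace E] {n : ℕ}
    (p q : Fin n → E) (ρ τ : Fin n → ℝ)
    (h : ∀ i j, dist (q i) (q j) ≤ dist (p i) (p j)) (hρ : ∀ i, 0 ≤ ρ i) (hτ : Antitone τ)
    (U : Submodule ℝ E) (hU : finrank ℝ U ≤ 3) (a b : E)
    (hd : ∀ i, (q i - b) - (p i - a) ∈ U) (hn : ∀ i, dist (q i) b = dist (p i) a) :
    ∑ k : Fin n, τ k * (volume {x : E | k.val + 1 ≤ num q ρ x}).toReal ≤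
      ∑ k : Fin n, τ k * (volume {x : E | k.val + 1 ≤ num p ρ x}).toReal :=
  weighted_of_space (fun _ hU m p q c hn h => trunc_le hU m p q c hn h) p q ρ τ h hρ hτ U hU a b
    hd hn

end Pool.Agent.KneserCentre
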