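import Pool.Agent.KneserCentre.Defs

/-!
# The average of an exponential over the unit sphere of a three-dimensional space

PROOF (σ = toSphere of the volume, ν = Measure.volumeIoiPow 2, a finite and a sigma-finite measure).
For a natural number m let A m := ∫ u, ⟪ξ, u⟫ ^ m ∂σ.
(1) Polar coordinates: by Measure.measurePreserving_homeomorphUnitSphereProd (see the proof of
integral_fun_norm_addHaar in Mathlib for the pattern: integral_subtype_comap,
restrict_compl_singleton, integral_comp, integral_prod_mul), with finrank = 3,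
∫ x : V, ⟪ξ, x⟫ ^ m * exp (-‖x‖ ^ 2 / 2) = A m * ∫ r in Ioi 0, r ^ 2 * (r ^ m * exp (-r ^ 2 / 2)).
(2) Choose an orthonormal basis whose first vector is ξ / ‖ξ‖ (ξ ≠ 0; for ξ = 0 the statement is
σ.real univ = 4 π, volume of the unit ball 4 π / 3, or the case m = 0 of the same computation):
the left side is ‖ξ‖ ^ m * (∫ s : ℝ, s ^ m * exp (-s ^ 2 / 2)) * (2 π) by measure preservation of
the basis coordinates and integral_fintype_prod_eq_prod. It is 0 for m odd, and for m even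
∫ s : ℝ, s ^ m * exp (-s ^ 2 / 2) = 2 * ∫ s in Ioi 0, s ^ m * exp (-s ^ 2 / 2) =: 2 * I m.
(3) I (m + 2) = (m + 1) * I m (Gamma function: integral_rpow_mul_exp_neg_mul_rpow, or by parts).
Hence A m = 4 π ‖ξ‖ ^ m / (m + 1) for even m and A m = 0 for odd m.
(4) exp ⟪ξ, u⟫ = Σ ⟪ξ, u⟫ ^ m / m!, dominated by exp ‖ξ‖, integrate term by term:
Σ over even m of 4 π ‖ξ‖ ^ m / (m + 1)! = 4 π * sinh ‖ξ‖ / ‖ξ‖.
Any other proof is welcome.
-/

set_option autoImplicit false
set_option linter.unusedSectionVars false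

namespace Pool.Agent.KneserCentre

open MeasureTheory Set Filter Topology Metric
open scoped InnerProductSpace

variable {V : Type*} [NormedAddCommGroup V] [InnerProductSpace ℝ V] [FiniteDimensional ℝ V]
  [MeasurableSpace V] [BorelSpace V]

/-- The radial integrals. -/
private noncomputable def sphereExpI (m : ℕ) : ℝ :=
  ∫ r in Ioi (0 : ℝ), r ^ m * Real.exp (-r ^ 2 / 2)

private theorem sphereExpI_eq (m : ℕ) :
    sphereExpI m = (1 / 2 : ℝ) ^ (-((m : ℝ) + 1) / 2) * (1 / 2) *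
      Real.Gamma (((m : ℝ) + 1) / 2) := by
  rw [← integral_rpow_mul_exp_neg_mul_rpow (p := 2) (q := (m : ℝ)) (b := 1 / 2) (by norm_num)
    (by have : (0 : ℝ) ≤ m := m.cast_nonneg; linarith) (by norm_num)]
  unfold sphereExpI
  refine setIntegral_congr_fun measurableSet_Ioi fun x hx => ?_
  rw [Real.rpow_natCast, show (2 : ℝ) = ((2 : ℕ) : ℝ) by norm_num, Real.rpow_natCast]
  congr 2
  push_cast
  ring

private theorem sphereExpI_pos (m : ℕ) : 0 < sphereExpI m := by
  rw [sphereExpI_eq]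
  have h1 : (0 : ℝ) ≤ m := m.cast_nonneg
  have h2 : 0 < Real.Gamma (((m : ℝ) + 1) / 2) := Real.Gamma_pos_of_pos (by linarith)
  positivity

private theorem sphereExpI_add_two (m : ℕ) :
    sphereExpI (m + 2) = ((m : ℝ) + 1) * sphereExpI m := by
  rw [sphereExpI_eq, sphereExpI_eq]
  have h1 : (0 : ℝ) ≤ m := m.cast_nonneg
  push_cast
  rw [show ((m : ℝ) + 2 + 1) / 2 = ((m : ℝ) + 1) / 2 + 1 by ring,
    Real.Gamma_add_one (by positivity),
    show -((m : ℝ) + 2 + 1) / 2 = -((m : ℝ) + 1) / 2 + (-1) by ring,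
    Real.rpow_add (by norm_num), Real.rpow_neg_one]
  ring

private theorem sphereExp_line_even {m : ℕ} (hm : Even m) :
    ∫ s : ℝ, s ^ m * Real.exp (-s ^ 2 / 2) = 2 * sphereExpI m := by
  have h := integral_comp_abs (f := fun s : ℝ => s ^ m * Real.exp (-s ^ 2 / 2))
  simp only [hm.pow_abs, sq_abs] at h
  exact h

private theorem sphereExp_line_odd {m : ℕ} (hm : Odd m) :
    ∫ s : ℝ, s ^ m * Real.exp (-s ^ 2 / 2) = 0 := by
  have h := integral_neg_eq_self (fun s : ℝ => s ^ m * Real.exp (-s ^ 2 / 2)) volume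
  simp only [hm.neg_pow, neg_sq, neg_mul] at h
  rw [integral_neg] at h
  linarith

private theorem sphereExp_line_zero :
    ∫ s : ℝ, Real.exp (-s ^ 2 / 2) = √(2 * Real.pi) := by
  have h := integral_gaussian (1 / 2)
  rw [show Real.pi / (1 / 2) = 2 * Real.pi by ring] at h
  rw [← h]
  congr 1
  ext s
  congr 1
  ring

/-- Polar coordinates. -/
private theorem sphereExp_polar (hV : Module.finrank ℝ V = 3) (ξ : V) (m : ℕ) :
    ∫ x : V, ⟪ξ, x⟫_ℝ ^ m * Real.exp (-‖x‖ ^ 2 / 2) =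
      (∫ u : sphere (0 : V) 1, ⟪ξ, (u : V)⟫_ℝ ^ m ∂(volume : Measure V).toSphere) *
        sphereExpI (m + 2) := by
  have : Nontrivial V := Module.nontrivial_of_finrank_pos (R := ℝ) (by omega)
  calc ∫ x : V, ⟪ξ, x⟫_ℝ ^ m * Real.exp (-‖x‖ ^ 2 / 2)
      = ∫ x : ({(0 : V)}ᶜ : Set V), ⟪ξ, x.1⟫_ℝ ^ m * Real.exp (-‖x.1‖ ^ 2 / 2)
          ∂((volume : Measure V).comap (↑)) := by
        rw [integral_subtype_comap (measurableSet_singleton _).compl
          fun x : V ↦ ⟪ξ, x⟫_ℝ ^ m * Real.exp (-‖x‖ ^ 2 / 2), restrict_compl_singleton]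
    _ = ∫ z : sphere (0 : V) 1 × Ioi (0 : ℝ), (⟪ξ, (z.1 : V)⟫_ℝ ^ m) *
          ((z.2 : ℝ) ^ m * Real.exp (-(z.2 : ℝ) ^ 2 / 2))
          ∂(volume : Measure V).toSphere.prod (.volumeIoiPow (Module.finrank ℝ V - 1)) := by
        rw [← (volume : Measure V).measurePreserving_homeomorphUnitSphereProd.integral_comp
          (Homeomorph.measurableEmbedding _)]
        congr 1
        ext x
        have hx : ‖(x : V)‖ ≠ 0 := norm_ne_zero_iff.2 x.2
        simp only [homeomorphUnitSphereProd_apply_fst_coe, homeomorphUnitSphereProd_apply_snd_coe,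
          inner_smul_right]
        rw [mul_pow, inv_pow]
        field_simp
    _ = (∫ u : sphere (0 : V) 1, ⟪ξ, (u : V)⟫_ℝ ^ m ∂(volume : Measure V).toSphere) *
          ∫ r : Ioi (0 : ℝ), ((r : ℝ) ^ m * Real.exp (-(r : ℝ) ^ 2 / 2))
          ∂.volumeIoiPow (Module.finrank ℝ V - 1) :=
        integral_prod_mul (fun u : sphere (0 : V) 1 => ⟪ξ, (u : V)⟫_ℝ ^ m)
          (fun r : Ioi (0 : ℝ) => ((r : ℝ) ^ m * Real.exp (-(r : ℝ) ^ 2 / 2)))
    _ = _ := by
        congr 1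
        unfold sphereExpI
        rw [hV]
        simp only [Measure.volumeIoiPow, ENNReal.ofReal]
        rw [integral_withDensity_eq_integral_smul,
          integral_subtype_comap measurableSet_Ioi
            fun a : ℝ ↦ Real.toNNReal (a ^ (3 - 1)) • (a ^ m * Real.exp (-a ^ 2 / 2)),
          setIntegral_congr_fun measurableSet_Ioi fun x hx ↦ ?_]
        · rw [NNReal.smul_def, Real.coe_toNNReal _ (pow_nonneg hx.out.le _), smul_eq_mul]
          ring
        · exact (measurable_subtype_coe.pow_const _).real_toNNReal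

/-- Coordinates. -/
private theorem sphereExp_coord (hV : Module.finrank ℝ V = 3) {ξ : V} (hξ : ξ ≠ 0) (m : ℕ) :
    ∫ x : V, ⟪ξ, x⟫_ℝ ^ m * Real.exp (-‖x‖ ^ 2 / 2) =
      ‖ξ‖ ^ m * (∫ s : ℝ, s ^ m * Real.exp (-s ^ 2 / 2)) * (2 * Real.pi) := by
  have hn : ‖ξ‖ ≠ 0 := norm_ne_zero_iff.2 hξ
  obtain ⟨b, hb⟩ := Orthonormal.exists_orthonormalBasis_extension_of_card_eq (𝕜 := ℝ) (E := V)
    (ι := Fin 3) (by simp [hV]) (v := fun _ => (‖ξ‖⁻¹ : ℝ) • ξ) (s := {0}) (by
      constructor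
      · intro i
        simp [norm_smul, hn]
      · intro i j hij
        exact absurd (Subsingleton.elim i j) hij)
  have hb0 : b 0 = (‖ξ‖⁻¹ : ℝ) • ξ := hb 0 rfl
  have hξb : ξ = ‖ξ‖ • b 0 := by
    rw [hb0, smul_smul, mul_inv_cancel₀ hn, one_smul]
  have e1 : ∫ x : V, ⟪ξ, x⟫_ℝ ^ m * Real.exp (-‖x‖ ^ 2 / 2) =
      ∫ y : EuclideanSpace ℝ (Fin 3), (‖ξ‖ * y 0) ^ m * Real.exp (-‖y‖ ^ 2 / 2) := by
    rw [← b.measurePreserving_repr.integral_comp b.repr.toHomeomorph.measurableEmbedding]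
    congr 1
    ext x
    rw [b.repr.norm_map, b.repr_apply_apply]
    conv_lhs => rw [hξb]
    rw [inner_smul_left]
    simp
  have e2 : ∫ y : EuclideanSpace ℝ (Fin 3), (‖ξ‖ * y 0) ^ m * Real.exp (-‖y‖ ^ 2 / 2) =
      ∫ y : Fin 3 → ℝ, ∏ i, (fun (i : Fin 3) (s : ℝ) =>
        if i = 0 then (‖ξ‖ * s) ^ m * Real.exp (-s ^ 2 / 2)
        else Real.exp (-s ^ 2 / 2)) i (y i) := by
    rw [← (EuclideanSpace.volume_preserving_symm_measurableEquiv_toLp (Fin 3)).integral_comp
      (MeasurableEquiv.measurableEmbedding _)]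
    congr 1
    ext y
    simp only [MeasurableEquiv.toLp_symm_apply, Fin.prod_univ_three, EuclideanSpace.norm_sq_eq,
      Fin.sum_univ_three, Real.norm_eq_abs, sq_abs, if_true, Fin.isValue, one_ne_zero, if_false]
    rw [if_neg (by decide), mul_assoc, mul_assoc, ← Real.exp_add, ← Real.exp_add]
    congr 2
    ring
  rw [e1, e2, integral_fintype_prod_volume_eq_prod (𝕜 := ℝ) (E := fun _ : Fin 3 => ℝ)
    (fun (i : Fin 3) (s : ℝ) =>
      if i = 0 then (‖ξ‖ * s) ^ m * Real.exp (-s ^ 2 / 2) else Real.exp (-s ^ 2 / 2)),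
    Fin.prod_univ_three]
  simp only [if_true, Fin.isValue, one_ne_zero, if_false]
  simp only [if_neg (show ¬ ((2 : Fin 3) = 0) by decide)]
  rw [sphereExp_line_zero, mul_assoc _ (√(2 * Real.pi)),
    Real.mul_self_sqrt (by positivity)]
  simp only [mul_pow, mul_assoc]
  rw [integral_const_mul]
  ring

/-- Moments on the sphere. -/
private theorem sphereExp_moment (hV : Module.finrank ℝ V = 3) {ξ : V} (hξ : ξ ≠ 0) (m : ℕ) :
    (∫ u : sphere (0 : V) 1, ⟪ξ, (u : V)⟫_ℝ ^ m ∂(volume : Measure V).toSphere) =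
      if Even m then 4 * Real.pi * ‖ξ‖ ^ m / ((m : ℝ) + 1) else 0 := by
  have h1 := sphereExp_polar hV ξ m
  rw [sphereExp_coord hV hξ m] at h1
  have h2 := sphereExpI_pos m
  have h3 : (0 : ℝ) ≤ m := m.cast_nonneg
  rw [sphereExpI_add_two] at h1
  split_ifs with hm
  · rw [sphereExp_line_even hm] at h1
    rw [eq_div_iff (by positivity)]
    refine mul_right_cancel₀ h2.ne' ?_
    linarith
  · rw [sphereExp_line_odd (Nat.not_even_iff_odd.1 hm)] at h1
    have h4 : ((m : ℝ) + 1) * sphereExpI m ≠ 0 := by positivity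
    have h5 : (∫ u : sphere (0 : V) 1, ⟪ξ, (u : V)⟫_ℝ ^ m ∂(volume : Measure V).toSphere) *
      (((m : ℝ) + 1) * sphereExpI m) = 0 := by linarith
    exact (mul_eq_zero.1 h5).resolve_right h4

/-- Total mass. -/
private theorem sphereExp_mass (hV : Module.finrank ℝ V = 3) :
    (∫ _u : sphere (0 : V) 1, (1 : ℝ) ∂(volume : Measure V).toSphere) = 4 * Real.pi := by
  have : Nontrivial V := Module.nontrivial_of_finrank_pos (R := ℝ) (by omega)
  obtain ⟨ξ, hξ⟩ := exists_ne (0 : V)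
  have h := sphereExp_moment hV hξ 0
  simpa using h

private theorem sphereExp_congr {f g : ℕ → ℝ} {a : ℝ} (h : HasSum f a)
    (e : ∀ k, g k = f k) : HasSum g a := by
  rw [funext e]
  exact h

theorem integral_sphere_exp (hV : Module.finrank ℝ V = 3) (ξ : V) :
    ∫ u : sphere (0 : V) 1, Real.exp ⟪ξ, (u : V)⟫_ℝ ∂(volume : Measure V).toSphere =
      4 * Real.pi * sc ‖ξ‖ := by
  rcases eq_or_ne ξ 0 with rfl | hξ
  · have h := sphereExp_mass hV
    simpa [sc] using h
  have hn : ‖ξ‖ ≠ 0 := norm_ne_zero_iff.2 hξ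
  have hs : HasSum (fun m : ℕ => ∫ u : sphere (0 : V) 1, ⟪ξ, (u : V)⟫_ℝ ^ m / (m.factorial : ℝ)
      ∂(volume : Measure V).toSphere)
      (∫ u : sphere (0 : V) 1, Real.exp ⟪ξ, (u : V)⟫_ℝ ∂(volume : Measure V).toSphere) := by
    refine hasSum_integral_of_dominated_convergence
      (fun m _ => ‖ξ‖ ^ m / (m.factorial : ℝ)) ?_ ?_ ?_ ?_ ?_
    · intro m
      refine Continuous.aestronglyMeasurable ?_
      fun_prop
    · intro m
      refine Filter.Eventually.of_forall fun u => ?_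
      have hu : ‖(u : V)‖ = 1 := by simpa using u.2
      have h1 : |⟪ξ, (u : V)⟫_ℝ| ≤ ‖ξ‖ := by
        simpa [hu] using abs_real_inner_le_norm ξ (u : V)
      rw [Real.norm_eq_abs, abs_div, abs_pow, Nat.abs_cast]
      gcongr
    · exact Filter.Eventually.of_forall fun u => Real.summable_pow_div_factorial ‖ξ‖
    · exact integrable_const _
    · refine Filter.Eventually.of_forall fun u => ?_
      rw [Real.exp_eq_exp_ℝ]
      exact NormedSpace.expSeries_div_hasSum_exp ⟪ξ, (u : V)⟫_ℝ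
  have hs' : HasSum (fun m : ℕ => (if Even m then 4 * Real.pi * ‖ξ‖ ^ m / ((m : ℝ) + 1) else 0) /
      (m.factorial : ℝ))
      (∫ u : sphere (0 : V) 1, Real.exp ⟪ξ, (u : V)⟫_ℝ ∂(volume : Measure V).toSphere) := by
    refine sphereExp_congr hs ?_
    intro m
    rw [integral_div, sphereExp_moment hV hξ m]
  refine hs'.unique ?_
  have he : HasSum (fun k : ℕ => (if Even (2 * k) then 4 * Real.pi * ‖ξ‖ ^ (2 * k) /
      (((2 * k : ℕ) : ℝ) + 1) else 0) / ((2 * k).factorial : ℝ))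
      (4 * Real.pi * (Real.sinh ‖ξ‖ / ‖ξ‖)) := by
    have h := ((Real.hasSum_sinh ‖ξ‖).div_const ‖ξ‖).mul_left (4 * Real.pi)
    refine sphereExp_congr h ?_
    intro k
    rw [if_pos (even_two_mul k), Nat.factorial_succ]
    have h1 : ((2 * k).factorial : ℝ) ≠ 0 := by positivity
    have h2 : ((2 * k : ℕ) : ℝ) + 1 ≠ 0 := by positivity
    push_cast at h2 ⊢
    field_simp
    ring
  have ho : HasSum (fun k : ℕ => (if Even (2 * k + 1) then 4 * Real.pi * ‖ξ‖ ^ (2 * k + 1) /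
      (((2 * k + 1 : ℕ) : ℝ) + 1) else 0) / ((2 * k + 1).factorial : ℝ)) 0 := by
    refine sphereExp_congr (hasSum_zero : HasSum (fun _ : ℕ => (0 : ℝ)) 0) ?_
    intro k
    rw [if_neg (by simp), zero_div]
  have hsum := HasSum.even_add_odd (f := fun m : ℕ => (if Even m then
    4 * Real.pi * ‖ξ‖ ^ m / ((m : ℝ) + 1) else 0) / (m.factorial : ℝ)) he ho
  rw [add_zero] at hsum
  simpa [sc, hn] using hsum

end Pool.Agent.KneserCentre
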