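import Pool.Agent.KneserCentre.Sinh
import Pool.Agent.KneserCentre.SphereExp

/-!
# The difference identity for products of polynomials in exponentials
-/

set_option autoImplicit false
set_option linter.unusedSectionVars false

namespace Pool.Agent.KneserCentre

open MeasureTheory Set Filter Topology Metric
open scoped InnerProductSpace

variable {V : Type*} [NormedAddCommGroup V] [InnerProductSpace ℝ V] [FiniteDimensional ℝ V]
  [MeasurableSpace V] [BorelSpace V]
variable {ι : Type*} [Fintype ι]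

/-- The surface measure of the unit sphere. -/
noncomputable def sig (V : Type*) [NormedAddCommGroup V] [InnerProductSpace ℝ V]
    [FiniteDimensional ℝ V] [MeasurableSpace V] [BorelSpace V] : Measure (sphere (0 : V) 1) :=
  (volume : Measure V).toSphere

instance : IsFiniteMeasure (sig V) := by
  unfold sig; infer_instance

/-- The measure on `[0, 1] × S × S`. -/
noncomputable def trip (V : Type*) [NormedAddCommGroup V] [InnerProductSpace ℝ V]
    [FiniteDimensional ℝ V] [MeasurableSpace V] [BorelSpace V] :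
    Measure (unitInterval × (sphere (0 : V) 1 × sphere (0 : V) 1)) :=
  (volume : Measure unitInterval).prod ((sig V).prod (sig V))

instance : IsFiniteMeasure (trip V) := by
  unfold trip; infer_instance

/-- The mixed argument. -/
noncomputable def yy (p q : ι → V) (z : unitInterval × (sphere (0 : V) 1 × sphere (0 : V) 1))
    (l : ι) : ℝ :=
  (z.1 : ℝ) * ⟪p l, (z.2.1 : V)⟫_ℝ + (1 - (z.1 : ℝ)) * ⟪q l, (z.2.2 : V)⟫_ℝ

/-- The argument on the sphere. -/
noncomputable def ys (p : ι → V) (u : sphere (0 : V) 1) (l : ι) : ℝ := ⟪p l, (u : V)⟫_ℝ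

theorem continuous_yy (p q : ι → V) : Continuous (yy p q) := by
  unfold yy
  fun_prop

theorem continuous_ys (p : ι → V) : Continuous (ys p) := by
  unfold ys
  fun_prop

theorem integrable_of_continuous {X : Type*} [TopologicalSpace X] [CompactSpace X]
    [MeasurableSpace X] [OpensMeasurableSpace X] (μ : Measure X) [IsFiniteMeasure μ]
    {f : X → ℝ} (hf : Continuous f) : Integrable f μ :=
  hf.integrable_of_hasCompactSupport (HasCompactSupport.of_compactSpace f)

/-- The exponential with exponents `k`. -/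
noncomputable def ex (k : ι → ℕ) (y : ι → ℝ) : ℝ := Real.exp (∑ l, (k l : ℝ) * y l)

theorem continuous_ex (k : ι → ℕ) : Continuous (ex k) := by
  unfold ex
  fun_prop

/-- The weight `t (1 - t)`. -/
noncomputable def wt (z : unitInterval × (sphere (0 : V) 1 × sphere (0 : V) 1)) : ℝ :=
  (z.1 : ℝ) * (1 - (z.1 : ℝ))

theorem continuous_wt : Continuous (wt (V := V)) := by
  unfold wt
  fun_prop

theorem wt_nonneg (z : unitInterval × (sphere (0 : V) 1 × sphere (0 : V) 1)) : 0 ≤ wt z := by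
  unfold wt
  exact mul_nonneg z.1.2.1 (sub_nonneg.mpr z.1.2.2)

theorem ex_identity (hV : Module.finrank ℝ V = 3) (p q : ι → V) (k : ι → ℕ) :
    (∫ u, ex k (ys p u) ∂(sig V)) - ∫ u, ex k (ys q u) ∂(sig V) =
      (4 * Real.pi)⁻¹ * ∫ z, wt z * ((∑ i, ∑ j, (⟪p i, p j⟫_ℝ - ⟪q i, q j⟫_ℝ) *
        ((k i : ℝ) * (k j : ℝ))) * ex k (yy p q z)) ∂(trip V) := by
  set P : V := ∑ l, (k l : ℝ) • p l with hP
  set Q : V := ∑ l, (k l : ℝ) • q l with hQ
  have h1 : ∀ (r : ι → V) (u : sphere (0 : V) 1),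
      ex k (ys r u) = Real.exp ⟪∑ l, (k l : ℝ) • r l, (u : V)⟫_ℝ := by
    intro r u
    unfold ex ys
    rw [sum_inner]
    simp only [real_inner_smul_left]
  have h2 : ∀ z : unitInterval × (sphere (0 : V) 1 × sphere (0 : V) 1), ex k (yy p q z) =
      Real.exp ⟪(z.1 : ℝ) • P, (z.2.1 : V)⟫_ℝ * Real.exp ⟪(1 - (z.1 : ℝ)) • Q, (z.2.2 : V)⟫_ℝ := by
    intro z
    unfold ex yy
    rw [← Real.exp_add, hP, hQ, real_inner_smul_left, real_inner_smul_left, sum_inner, sum_inner,
      Finset.mul_sum, Finset.mul_sum, ← Finset.sum_add_distrib]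
    congr 1
    refine Finset.sum_congr rfl fun l _ => ?_
    rw [real_inner_smul_left, real_inner_smul_left]
    ring
  have h3 : ∑ i, ∑ j, (⟪p i, p j⟫_ℝ - ⟪q i, q j⟫_ℝ) * ((k i : ℝ) * (k j : ℝ)) =
      ‖P‖ ^ 2 - ‖Q‖ ^ 2 := by
    rw [← real_inner_self_eq_norm_sq, ← real_inner_self_eq_norm_sq, hP, hQ, sum_inner, sum_inner,
      ← Finset.sum_sub_distrib]
    refine Finset.sum_congr rfl fun i _ => ?_
    rw [inner_sum, inner_sum, ← Finset.sum_sub_distrib]
    refine Finset.sum_congr rfl fun j _ => ?_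
    simp only [real_inner_smul_left, real_inner_smul_right]
    ring
  have h4 : ∫ z, wt z * ((‖P‖ ^ 2 - ‖Q‖ ^ 2) * ex k (yy p q z)) ∂(trip V) =
      (‖P‖ ^ 2 - ‖Q‖ ^ 2) * ((4 * Real.pi) ^ 2 *
        ∫ t in (0 : ℝ)..1, t * (1 - t) * (sc (t * ‖P‖) * sc ((1 - t) * ‖Q‖))) := by
    have hint : Integrable (fun z => wt z * ((‖P‖ ^ 2 - ‖Q‖ ^ 2) * ex k (yy p q z))) (trip V) := by
      refine integrable_of_continuous _ ?_
      have ha := continuous_wt (V := V)
      have hb := (continuous_ex k).comp (continuous_yy p q)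
      exact ha.mul (continuous_const.mul hb)
    unfold trip
    rw [integral_prod _ hint]
    have h5 : ∀ t : unitInterval, ∫ w : sphere (0 : V) 1 × sphere (0 : V) 1,
        wt (t, w) * ((‖P‖ ^ 2 - ‖Q‖ ^ 2) * ex k (yy p q (t, w))) ∂((sig V).prod (sig V)) =
        (fun t : ℝ => (‖P‖ ^ 2 - ‖Q‖ ^ 2) * ((4 * Real.pi) ^ 2 *
          (t * (1 - t) * (sc (t * ‖P‖) * sc ((1 - t) * ‖Q‖))))) (t : ℝ) := by
      intro t
      have h6 : ∀ w : sphere (0 : V) 1 × sphere (0 : V) 1,
          wt (t, w) * ((‖P‖ ^ 2 - ‖Q‖ ^ 2) * ex k (yy p q (t, w))) =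
          ((t : ℝ) * (1 - (t : ℝ)) * (‖P‖ ^ 2 - ‖Q‖ ^ 2)) *
          (Real.exp ⟪(t : ℝ) • P, (w.1 : V)⟫_ℝ *
            Real.exp ⟪(1 - (t : ℝ)) • Q, (w.2 : V)⟫_ℝ) := by
        intro w
        rw [h2 (t, w)]
        unfold wt
        ring
      simp only [h6]
      rw [integral_const_mul, integral_prod_mul
        (f := fun u : sphere (0 : V) 1 => Real.exp ⟪(t : ℝ) • P, (u : V)⟫_ℝ)
        (g := fun u : sphere (0 : V) 1 => Real.exp ⟪(1 - (t : ℝ)) • Q, (u : V)⟫_ℝ)]
      unfold sig
      rw [integral_sphere_exp hV, integral_sphere_exp hV, norm_smul, norm_smul,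
        Real.norm_of_nonneg t.2.1, Real.norm_of_nonneg (sub_nonneg.mpr t.2.2)]
      ring
    simp only [h5]
    rw [← intervalIntegral.integral_const_mul, ← intervalIntegral.integral_const_mul,
      intervalIntegral.integral_of_le zero_le_one, ← integral_Icc_eq_integral_Ioc]
    exact integral_subtype_comap measurableSet_Icc (fun t : ℝ => (‖P‖ ^ 2 - ‖Q‖ ^ 2) *
      ((4 * Real.pi) ^ 2 * (t * (1 - t) * (sc (t * ‖P‖) * sc ((1 - t) * ‖Q‖)))))
  simp only [h3, h1]
  rw [h4]
  unfold sig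
  rw [integral_sphere_exp hV, integral_sphere_exp hV, ← hP, ← hQ, ← mul_sub, sc_sub]
  generalize ∫ t in (0 : ℝ)..1, t * (1 - t) * (sc (t * ‖P‖) * sc ((1 - t) * ‖Q‖)) = I
  have hpi := Real.pi_pos
  field_simp

theorem eval_exp_eq (P : Polynomial ℝ) {N : ℕ} (hN : P.natDegree < N) (s : ℝ) :
    P.eval (Real.exp s) = ∑ m ∈ Finset.range N, P.coeff m * Real.exp ((m : ℝ) * s) := by
  rw [Polynomial.eval_eq_sum_range' hN]
  refine Finset.sum_congr rfl fun m _ => ?_
  rw [Real.exp_nat_mul]

theorem dP_eq (P : Polynomial ℝ) {N : ℕ} (hN : P.natDegree < N) (s : ℝ) :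
    dP P s = ∑ m ∈ Finset.range N, (P.coeff m * (m : ℝ)) * Real.exp ((m : ℝ) * s) := by
  have h1 : dP P s = (Polynomial.X * Polynomial.derivative P).eval (Real.exp s) := by
    unfold dP
    rw [Polynomial.eval_mul, Polynomial.eval_X]
  have h2 : (Polynomial.X * Polynomial.derivative P).natDegree < N := by
    rcases Nat.eq_zero_or_pos P.natDegree with h | h
    · rw [Polynomial.eq_C_of_natDegree_eq_zero h]
      simpa using (Nat.zero_le _).trans_lt hN
    · refine (Polynomial.natDegree_mul_le.trans ?_).trans_lt hN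
      have := Polynomial.natDegree_derivative_lt (p := P) (by omega)
      have h3 : (Polynomial.X : Polynomial ℝ).natDegree ≤ 1 := Polynomial.natDegree_X_le
      omega
  rw [h1, eval_exp_eq _ h2]
  refine Finset.sum_congr rfl fun m _ => ?_
  congr 1
  rcases m with _ | m
  · simp
  · rw [Polynomial.coeff_X_mul, Polynomial.coeff_derivative]
    push_cast
    ring

variable [DecidableEq ι]

/-- The index set of the expansion. -/
def idx (ι : Type*) [Fintype ι] [DecidableEq ι] (N : ℕ) : Finset (ι → ℕ) :=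
  Fintype.piFinset fun _ => Finset.range N

theorem prod_expand (P : ι → Polynomial ℝ) {N : ℕ} (hN : ∀ l, (P l).natDegree < N) (y : ι → ℝ) :
    ∏ l, (P l).eval (Real.exp (y l)) =
      ∑ k ∈ idx ι N, (∏ l, (P l).coeff (k l)) * ex k y := by
  simp only [fun l => eval_exp_eq (P l) (hN l) (y l)]
  rw [Finset.prod_univ_sum]
  refine Finset.sum_congr rfl fun k _ => ?_
  rw [Finset.prod_mul_distrib, ex, Real.exp_sum]

theorem mix_expand (P : ι → Polynomial ℝ) {N : ℕ} (hN : ∀ l, (P l).natDegree < N) {i j : ι}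
    (hij : i ≠ j) (y : ι → ℝ) :
    mix P i j y =
      ∑ k ∈ idx ι N, (∏ l, (P l).coeff (k l)) * (((k i : ℝ) * (k j : ℝ)) * ex k y) := by
  have h1 : mix P i j y = ∏ l, ∑ m ∈ Finset.range N,
      ((P l).coeff m * Real.exp ((m : ℝ) * y l)) *
        (if l = i ∨ l = j then (m : ℝ) else 1) := by
    have h2 : ∀ l, ∑ m ∈ Finset.range N, ((P l).coeff m * Real.exp ((m : ℝ) * y l)) *
        (if l = i ∨ l = j then (m : ℝ) else 1) =
        if l = i ∨ l = j then dP (P l) (y l) else (P l).eval (Real.exp (y l)) := by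
      intro l
      split_ifs with h
      · rw [dP_eq (P l) (hN l)]
        refine Finset.sum_congr rfl fun m _ => ?_
        ring
      · rw [eval_exp_eq (P l) (hN l)]
        refine Finset.sum_congr rfl fun m _ => ?_
        ring
    simp only [h2]
    unfold mix
    rw [if_neg hij, ← Finset.mul_prod_erase Finset.univ _ (Finset.mem_univ i),
      ← Finset.mul_prod_erase (Finset.univ.erase i) _
        (Finset.mem_erase.mpr ⟨hij.symm, Finset.mem_univ j⟩)]
    simp only [true_or, or_true, if_true, mul_assoc]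
    congr 2
    refine Finset.prod_congr rfl fun l hl => ?_
    have h3 := Finset.mem_erase.mp hl
    have h4 := Finset.mem_erase.mp h3.2
    rw [if_neg (by rintro (h | h); exacts [h4.1 h, h3.1 h])]
  rw [h1, Finset.prod_univ_sum]
  refine Finset.sum_congr rfl fun k _ => ?_
  have h5 : ∏ l, (if l = i ∨ l = j then (k l : ℝ) else 1) = (k i : ℝ) * (k j : ℝ) := by
    rw [← Finset.mul_prod_erase Finset.univ _ (Finset.mem_univ i),
      ← Finset.mul_prod_erase (Finset.univ.erase i) _
        (Finset.mem_erase.mpr ⟨hij.symm, Finset.mem_univ j⟩)]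
    simp only [true_or, or_true, if_true]
    rw [Finset.prod_eq_one, mul_one]
    intro l hl
    have h3 := Finset.mem_erase.mp hl
    have h4 := Finset.mem_erase.mp h3.2
    rw [if_neg (by rintro (h | h); exacts [h4.1 h, h3.1 h])]
  rw [Finset.prod_mul_distrib, Finset.prod_mul_distrib, h5, ex, Real.exp_sum]
  ring

/-- The difference identity for products. -/
theorem prod_identity (hV : Module.finrank ℝ V = 3) (P : ι → Polynomial ℝ) (p q : ι → V)
    (hn : ∀ i, ‖q i‖ = ‖p i‖) :
    (∫ u, ∏ l, (P l).eval (Real.exp (ys p u l)) ∂(sig V)) -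
      ∫ u, ∏ l, (P l).eval (Real.exp (ys q u l)) ∂(sig V) =
      (4 * Real.pi)⁻¹ * ∫ z, wt z * (∑ i, ∑ j, (⟪p i, p j⟫_ℝ - ⟪q i, q j⟫_ℝ) *
        mix P i j (yy p q z)) ∂(trip V) := by
  obtain ⟨N, hN⟩ : ∃ N : ℕ, ∀ l, (P l).natDegree < N := by
    refine ⟨(∑ l, (P l).natDegree) + 1, fun l => ?_⟩
    have := Finset.single_le_sum (f := fun l => (P l).natDegree) (fun _ _ => Nat.zero_le _)
      (Finset.mem_univ l)
    exact Nat.lt_succ_of_le this
  have h1 : ∀ z, wt z * (∑ i, ∑ j, (⟪p i, p j⟫_ℝ - ⟪q i, q j⟫_ℝ) * mix P i j (yy p q z)) =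
      ∑ k ∈ idx ι N, (∏ l, (P l).coeff (k l)) * (wt z * ((∑ i, ∑ j,
        (⟪p i, p j⟫_ℝ - ⟪q i, q j⟫_ℝ) * ((k i : ℝ) * (k j : ℝ))) * ex k (yy p q z))) := by
    intro z
    have h2 : ∀ i j, (⟪p i, p j⟫_ℝ - ⟪q i, q j⟫_ℝ) * mix P i j (yy p q z) =
        ∑ k ∈ idx ι N, (∏ l, (P l).coeff (k l)) * ((⟪p i, p j⟫_ℝ - ⟪q i, q j⟫_ℝ) *
          (((k i : ℝ) * (k j : ℝ)) * ex k (yy p q z))) := by
      intro i j
      rcases eq_or_ne i j with rfl | hij
      · have h3 : ⟪p i, p i⟫_ℝ - ⟪q i, q i⟫_ℝ = 0 := by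
          rw [real_inner_self_eq_norm_sq, real_inner_self_eq_norm_sq, hn i, sub_self]
        simp only [h3, zero_mul, mul_zero, Finset.sum_const_zero]
      · rw [mix_expand P hN hij, Finset.mul_sum]
        refine Finset.sum_congr rfl fun k _ => ?_
        ring
    simp only [h2]
    have h4 : ∀ i, ∑ j, ∑ k ∈ idx ι N, (∏ l, (P l).coeff (k l)) *
        ((⟪p i, p j⟫_ℝ - ⟪q i, q j⟫_ℝ) * (((k i : ℝ) * (k j : ℝ)) * ex k (yy p q z))) =
        ∑ k ∈ idx ι N, ∑ j, (∏ l, (P l).coeff (k l)) *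
        ((⟪p i, p j⟫_ℝ - ⟪q i, q j⟫_ℝ) * (((k i : ℝ) * (k j : ℝ)) * ex k (yy p q z))) :=
      fun i => Finset.sum_comm
    simp only [h4]
    rw [Finset.sum_comm, Finset.mul_sum]
    refine Finset.sum_congr rfl fun k _ => ?_
    rw [Finset.sum_mul, Finset.mul_sum, Finset.mul_sum, Finset.mul_sum]
    refine Finset.sum_congr rfl fun i _ => ?_
    rw [Finset.sum_mul, Finset.mul_sum, Finset.mul_sum, Finset.mul_sum]
    refine Finset.sum_congr rfl fun j _ => ?_
    ring
  simp only [h1, fun r : ι → V => fun u : sphere (0 : V) 1 => prod_expand P hN (ys r u)]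
  rw [integral_finsetSum, integral_finsetSum, integral_finsetSum, ← Finset.sum_sub_distrib,
    Finset.mul_sum]
  · refine Finset.sum_congr rfl fun k _ => ?_
    rw [integral_const_mul, integral_const_mul, integral_const_mul, ← mul_sub,
      ex_identity hV p q k]
    ring
  · intro k _
    refine integrable_of_continuous _ (continuous_const.mul ?_)
    exact (continuous_wt (V := V)).mul (continuous_const.mul
      ((continuous_ex k).comp (continuous_yy p q)))
  · intro k _
    exact integrable_of_continuous _ (continuous_const.mul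
      ((continuous_ex k).comp (continuous_ys q)))
  · intro k _
    exact integrable_of_continuous _ (continuous_const.mul
      ((continuous_ex k).comp (continuous_ys p)))

end Pool.Agent.KneserCentre
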