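import Pool.Agent.KneserCentre.Defs

/-!
# The sign of the mixed second derivative

PROOF. Put R := (univ.erase i).erase j, so univ = insert i (insert j R) and every S is T,
insert i T, insert j T or insert i (insert j T) for a unique T ⊆ R
(Finset.sum_powerset_insert twice, with Finset.powerset_univ). The product over R only
depends on T, it is W T := ∏ l ∈ R, (if l ∈ T then w l else 1 - w l) ≥ 0, and the four terms with the same T add up to
(φ (|T| + 2) - φ (|T| + 1) - φ (|T| + 1) + φ |T|) * W T ≤ 0.
-/

set_option autoImplicit false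
set_option linter.unusedSectionVars false

namespace Pool.Agent.KneserCentre

theorem sum_sign_nonpos {ι : Type*} [Fintype ι] [DecidableEq ι] (φ : ℕ → ℝ)
    (hφ : ∀ k, φ (k + 2) - 2 * φ (k + 1) + φ k ≤ 0) (w : ι → ℝ)
    (h0 : ∀ i, 0 ≤ w i) (h1 : ∀ i, w i ≤ 1) (i j : ι) (hij : i ≠ j) :
    ∑ S : Finset ι, φ S.card *
      ((if i ∈ S then (1 : ℝ) else -1) * (if j ∈ S then (1 : ℝ) else -1) *
        ∏ l ∈ (Finset.univ.erase i).erase j, (if l ∈ S then w l else 1 - w l)) ≤ 0 := by
  generalize hR : (Finset.univ.erase i).erase j = R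
  have hjR : j ∉ R := by rw [← hR]; simp
  have hiR' : i ∉ R := by rw [← hR]; simp
  have hiR : i ∉ insert j R := by
    rw [Finset.mem_insert]
    rintro (h | h)
    · exact hij h
    · exact hiR' h
  have huniv : (Finset.univ : Finset ι) = insert i (insert j R) := by
    rw [← hR]
    ext x
    simp only [Finset.mem_univ, Finset.mem_insert, Finset.mem_erase, ne_eq, true_iff, and_true]
    by_cases hx : x = i
    · exact Or.inl hx
    · by_cases hy : x = j
      · exact Or.inr (Or.inl hy)
      · exact Or.inr (Or.inr ⟨hy, hx⟩)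
  have key : ∀ F : Finset ι → ℝ, ∑ S : Finset ι, F S =
      ∑ T ∈ R.powerset,
        ((F T + F (insert j T)) + (F (insert i T) + F (insert i (insert j T)))) := by
    intro F
    have e1 : ∑ S : Finset ι, F S = ∑ S ∈ (Finset.univ : Finset ι).powerset, F S := by
      rw [Finset.powerset_univ]
    rw [e1, huniv, Finset.sum_powerset_insert hiR, Finset.sum_powerset_insert hjR,
      Finset.sum_powerset_insert hjR]
    rw [Finset.sum_add_distrib, Finset.sum_add_distrib, Finset.sum_add_distrib]
  rw [key]
  apply Finset.sum_nonpos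
  intro T hT
  have hTR : T ⊆ R := Finset.mem_powerset.1 hT
  have hiT : i ∉ T := fun h => hiR' (hTR h)
  have hjT : j ∉ T := fun h => hjR (hTR h)
  have hijT : i ∉ insert j T := by
    rw [Finset.mem_insert]
    rintro (h | h)
    · exact hij h
    · exact hiT h
  have hjiT : j ∉ insert i T := by
    rw [Finset.mem_insert]
    rintro (h | h)
    · exact hij h.symm
    · exact hjT h
  have c1 : (insert j T).card = T.card + 1 := Finset.card_insert_of_notMem hjT
  have c2 : (insert i T).card = T.card + 1 := Finset.card_insert_of_notMem hiT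
  have c3 : (insert i (insert j T)).card = T.card + 2 := by
    rw [Finset.card_insert_of_notMem hijT, c1]
  have p1 : ∏ l ∈ R, (if l ∈ insert j T then w l else 1 - w l) =
      ∏ l ∈ R, (if l ∈ T then w l else 1 - w l) := by
    apply Finset.prod_congr rfl
    intro l hl
    have hlj : l ≠ j := fun h => hjR (h ▸ hl)
    simp only [Finset.mem_insert, hlj, false_or]
  have p2 : ∏ l ∈ R, (if l ∈ insert i T then w l else 1 - w l) =
      ∏ l ∈ R, (if l ∈ T then w l else 1 - w l) := by
    apply Finset.prod_congr rfl
    intro l hl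
    have hli : l ≠ i := fun h => hiR' (h ▸ hl)
    simp only [Finset.mem_insert, hli, false_or]
  have p3 : ∏ l ∈ R, (if l ∈ insert i (insert j T) then w l else 1 - w l) =
      ∏ l ∈ R, (if l ∈ T then w l else 1 - w l) := by
    apply Finset.prod_congr rfl
    intro l hl
    have hli : l ≠ i := fun h => hiR' (h ▸ hl)
    have hlj : l ≠ j := fun h => hjR (h ▸ hl)
    simp only [Finset.mem_insert, hli, hlj, false_or]
  have hW : 0 ≤ ∏ l ∈ R, (if l ∈ T then w l else 1 - w l) := by
    apply Finset.prod_nonneg
    intro l _
    split_ifs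
    · exact h0 l
    · linarith [h1 l]
  rw [p1, p2, p3, c1, c2, c3, if_neg hiT, if_neg hjT, if_neg hijT, if_neg hjiT,
    if_pos (Finset.mem_insert_self j T), if_pos (Finset.mem_insert_self i T),
    if_pos (Finset.mem_insert_self i (insert j T)),
    if_pos (Finset.mem_insert_of_mem (Finset.mem_insert_self j T) :
      j ∈ insert i (insert j T))]
  have h := mul_nonpos_of_nonpos_of_nonneg (hφ T.card) hW
  nlinarith [h]

end Pool.Agent.KneserCentre
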