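import Pool.Agent.KneserCentre.Defs

/-!
# The identity for `sinh x / x`

With `u t = t * sc (t * x)` and `v t = (1 - t) * sc ((1 - t) * y)` one has
`(u' v - u v')' = (x ^ 2 - y ^ 2) u v`, hence
`sc x - sc y = (x ^ 2 - y ^ 2) * ∫ t in 0..1, t * (1 - t) * (sc (t * x) * sc ((1 - t) * y))`.
-/

set_option autoImplicit false
set_option linter.unusedSectionVars false

namespace Pool.Agent.KneserCentre

open MeasureTheory Set Filter Topology Metric

theorem sc_zero : sc 0 = 1 := by simp [sc]

theorem mul_sc (x : ℝ) : x * sc x = Real.sinh x := by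
  unfold sc
  split_ifs with h
  · simp [h]
  · field_simp

theorem mul_sc_mul (x t : ℝ) : t * sc (t * x) = if x = 0 then t else Real.sinh (t * x) / x := by
  split_ifs with h
  · simp [h, sc_zero]
  · rw [← mul_sc (t * x)]
    field_simp

theorem hasDerivAt_mul_sc (x t : ℝ) :
    HasDerivAt (fun t => t * sc (t * x)) (Real.cosh (t * x)) t := by
  rcases eq_or_ne x 0 with rfl | hx
  · simpa [sc_zero] using hasDerivAt_id' t
  · have h1 : (fun t => t * sc (t * x)) = fun t => Real.sinh (t * x) / x := by
      funext t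
      rw [mul_sc_mul, if_neg hx]
    rw [h1]
    have h2 : HasDerivAt (fun t : ℝ => t * x) x t := by
      simpa using (hasDerivAt_id t).mul_const x
    have h3 := (h2.sinh).div_const x
    refine h3.congr_deriv ?_
    field_simp

theorem hasDerivAt_cosh_mul (x t : ℝ) :
    HasDerivAt (fun t => Real.cosh (t * x)) (x ^ 2 * (t * sc (t * x))) t := by
  have h2 : HasDerivAt (fun t : ℝ => t * x) x t := by
    simpa using (hasDerivAt_id t).mul_const x
  refine (h2.cosh).congr_deriv ?_
  rw [← mul_sc (t * x)]
  ring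

theorem continuous_mul_sc (x : ℝ) : Continuous (fun t => t * sc (t * x)) :=
  continuous_iff_continuousAt.mpr fun t => (hasDerivAt_mul_sc x t).continuousAt

theorem sc_sub (x y : ℝ) : sc x - sc y =
    (x ^ 2 - y ^ 2) * ∫ t in (0 : ℝ)..1, t * (1 - t) * (sc (t * x) * sc ((1 - t) * y)) := by
  have hv : ∀ t : ℝ, HasDerivAt (fun t => (1 - t) * sc ((1 - t) * y))
      (-Real.cosh ((1 - t) * y)) t := by
    intro t
    have h1 : HasDerivAt (fun t : ℝ => 1 - t) (-1) t := by
      simpa using (hasDerivAt_id t).const_sub 1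
    have h2 := (hasDerivAt_mul_sc y (1 - t)).comp t h1
    refine h2.congr_deriv ?_
    ring
  have hc : ∀ t : ℝ, HasDerivAt (fun t => Real.cosh ((1 - t) * y))
      (-(y ^ 2 * ((1 - t) * sc ((1 - t) * y)))) t := by
    intro t
    have h1 : HasDerivAt (fun t : ℝ => 1 - t) (-1) t := by
      simpa using (hasDerivAt_id t).const_sub 1
    have h2 := (hasDerivAt_cosh_mul y (1 - t)).comp t h1
    refine h2.congr_deriv ?_
    ring
  have hF : ∀ t : ℝ, HasDerivAt (fun t => Real.cosh (t * x) * ((1 - t) * sc ((1 - t) * y)) +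
      t * sc (t * x) * Real.cosh ((1 - t) * y))
      ((x ^ 2 - y ^ 2) * (t * (1 - t) * (sc (t * x) * sc ((1 - t) * y)))) t := by
    intro t
    have h := ((hasDerivAt_cosh_mul x t).mul (hv t)).add ((hasDerivAt_mul_sc x t).mul (hc t))
    refine h.congr_deriv ?_
    ring
  have hcont : Continuous (fun t : ℝ =>
      (x ^ 2 - y ^ 2) * (t * (1 - t) * (sc (t * x) * sc ((1 - t) * y)))) := by
    have h1 := continuous_mul_sc x
    have h2 : Continuous (fun t : ℝ => (1 - t) * sc ((1 - t) * y)) :=
      (continuous_mul_sc y).comp (by fun_prop)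
    have h3 := (h1.mul h2).const_mul (x ^ 2 - y ^ 2)
    refine h3.congr fun t => ?_
    simp only [Pi.mul_apply]
    ring
  have h := intervalIntegral.integral_eq_sub_of_hasDerivAt (a := 0) (b := 1)
    (fun t _ => hF t) (hcont.intervalIntegrable 0 1)
  rw [intervalIntegral.integral_const_mul] at h
  rw [h]
  simp

end Pool.Agent.KneserCentre
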