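import Pool.Agent.KneserCentre.Identity
import Pool.Agent.KneserCentre.Sign

/-!
# The inequality on the sphere
-/

set_option autoImplicit false
set_option linter.unusedSectionVars false

namespace Pool.Agent.KneserCentre

open MeasureTheory Set Filter Topology Metric
open scoped InnerProductSpace

variable {V : Type*} [NormedAddCommGroup V] [InnerProductSpace ℝ V] [FiniteDimensional ℝ V]
  [MeasurableSpace V] [BorelSpace V]
variable {ι : Type*} [Fintype ι] [DecidableEq ι]

/-- The multi-affine extension of `φ`. -/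
noncomputable def mul (φ : ℕ → ℝ) (w : ι → ℝ) : ℝ :=
  ∑ S : Finset ι, φ S.card * ∏ l, (if l ∈ S then w l else 1 - w l)

theorem continuous_mul (φ : ℕ → ℝ) : Continuous (mul (ι := ι) φ) := by
  unfold mul
  refine continuous_finsetSum _ fun S _ => continuous_const.mul ?_
  refine continuous_finsetProd _ fun l _ => ?_
  split_ifs
  · fun_prop
  · fun_prop

theorem abs_mul_le (φ : ℕ → ℝ) {w : ι → ℝ} (h0 : ∀ i, 0 ≤ w i) (h1 : ∀ i, w i ≤ 1) :
    |mul φ w| ≤ ∑ S : Finset ι, |φ S.card| := by
  unfold mul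
  refine (Finset.abs_sum_le_sum_abs _ _).trans (Finset.sum_le_sum fun S _ => ?_)
  rw [abs_mul]
  have h2 : |∏ l, (if l ∈ S then w l else 1 - w l)| ≤ 1 := by
    rw [Finset.abs_prod]
    refine Finset.prod_le_one (fun l _ => abs_nonneg _) fun l _ => ?_
    have ha := h0 l
    have hb := h1 l
    rw [abs_le]
    split_ifs <;> constructor <;> linarith
  exact mul_le_of_le_one_right (abs_nonneg _) h2

theorem mul_indicator (φ : ℕ → ℝ) (T : Finset ι) :
    mul φ (fun l => if l ∈ T then 1 else 0) = φ T.card := by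
  unfold mul
  rw [Finset.sum_eq_single T]
  · rw [Finset.prod_eq_one, mul_one]
    intro l _
    by_cases hl : l ∈ T
    · simp [hl]
    · simp [hl]
  · intro S _ hS
    have : ∃ l, ¬ (l ∈ S ↔ l ∈ T) := by
      by_contra hcon
      push Not at hcon
      exact hS (Finset.ext hcon)
    obtain ⟨l, hl⟩ := this
    rw [Finset.prod_eq_zero (Finset.mem_univ l), mul_zero]
    by_cases h1 : l ∈ S <;> by_cases h2 : l ∈ T <;> simp_all
  · simp

/-- The inequality for monotone polynomials in the exponentials. -/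
theorem smooth_le (hV : Module.finrank ℝ V = 3) (φ : ℕ → ℝ)
    (hφ : ∀ k, φ (k + 2) - 2 * φ (k + 1) + φ k ≤ 0) (p q : ι → V)
    (hn : ∀ i, ‖q i‖ = ‖p i‖) (hpq : ∀ i j, ⟪p i, p j⟫_ℝ ≤ ⟪q i, q j⟫_ℝ) {R : ℝ}
    (hR : ∀ i, ‖p i‖ ≤ R) (A : ι → Polynomial ℝ)
    (h0 : ∀ i s, |s| ≤ R → 0 ≤ (A i).eval (Real.exp s))
    (h1 : ∀ i s, |s| ≤ R → (A i).eval (Real.exp s) ≤ 1)
    (hd : ∀ i s, |s| ≤ R → 0 ≤ dP (A i) s) :
    ∫ u, mul φ (fun l => (A l).eval (Real.exp (ys q u l))) ∂(sig V) ≤
      ∫ u, mul φ (fun l => (A l).eval (Real.exp (ys p u l))) ∂(sig V) := by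
  set B : Finset ι → ι → Polynomial ℝ := fun S l => if l ∈ S then A l else 1 - A l with hB
  have hBe : ∀ (S : Finset ι) (l : ι) (s : ℝ), (B S l).eval (Real.exp s) =
      if l ∈ S then (A l).eval (Real.exp s) else 1 - (A l).eval (Real.exp s) := by
    intro S l s
    simp only [hB]
    split_ifs <;> simp
  have hBd : ∀ (S : Finset ι) (l : ι) (s : ℝ), dP (B S l) s =
      (if l ∈ S then (1 : ℝ) else -1) * dP (A l) s := by
    intro S l s
    simp only [hB, dP]
    split_ifs
    · simp
    · simp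
  have hid : ∀ S : Finset ι, (∫ u, ∏ l, (B S l).eval (Real.exp (ys p u l)) ∂(sig V)) -
      ∫ u, ∏ l, (B S l).eval (Real.exp (ys q u l)) ∂(sig V) =
      (4 * Real.pi)⁻¹ * ∫ z, wt z * (∑ i, ∑ j, (⟪p i, p j⟫_ℝ - ⟪q i, q j⟫_ℝ) *
        mix (B S) i j (yy p q z)) ∂(trip V) := fun S => prod_identity hV (B S) p q hn
  have hsum : ∀ r : ι → V, ∫ u, mul φ (fun l => (A l).eval (Real.exp (ys r u l))) ∂(sig V) =
      ∑ S : Finset ι, φ S.card * ∫ u, ∏ l, (B S l).eval (Real.exp (ys r u l)) ∂(sig V) := by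
    intro r
    unfold mul
    simp only [← hBe]
    rw [integral_finsetSum]
    · refine Finset.sum_congr rfl fun S _ => ?_
      rw [integral_const_mul]
    · intro S _
      refine integrable_of_continuous _ (continuous_const.mul ?_)
      refine continuous_finsetProd _ fun l _ => ?_
      have hc : Continuous fun u : sphere (0 : V) 1 => ys r u l :=
        (continuous_apply l).comp (continuous_ys r)
      exact (B S l).continuous.comp (Real.continuous_exp.comp hc)
  have hmixc : ∀ (S : Finset ι) (i j : ι),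
      Continuous fun z : unitInterval × (sphere (0 : V) 1 × sphere (0 : V) 1) =>
        mix (B S) i j (yy p q z) := by
    intro S i j
    have hc : ∀ l, Continuous fun z : unitInterval × (sphere (0 : V) 1 × sphere (0 : V) 1) =>
        yy p q z l := fun l => (continuous_apply l).comp (continuous_yy p q)
    have hdc : ∀ l, Continuous fun z : unitInterval × (sphere (0 : V) 1 × sphere (0 : V) 1) =>
        dP (B S l) (yy p q z l) := by
      intro l
      unfold dP
      exact (Real.continuous_exp.comp (hc l)).mul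
        ((Polynomial.derivative (B S l)).continuous.comp (Real.continuous_exp.comp (hc l)))
    unfold mix
    split_ifs
    · exact continuous_const
    · refine ((hdc i).mul (hdc j)).mul (continuous_finsetProd _ fun l _ => ?_)
      exact (B S l).continuous.comp (Real.continuous_exp.comp (hc l))
  rw [← sub_nonneg, hsum, hsum, ← Finset.sum_sub_distrib]
  have h3 : ∀ S : Finset ι,
      φ S.card * (∫ u, ∏ l, (B S l).eval (Real.exp (ys p u l)) ∂(sig V)) -
      φ S.card * (∫ u, ∏ l, (B S l).eval (Real.exp (ys q u l)) ∂(sig V)) =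
      (4 * Real.pi)⁻¹ * ∫ z, φ S.card * (wt z * (∑ i, ∑ j, (⟪p i, p j⟫_ℝ - ⟪q i, q j⟫_ℝ) *
        mix (B S) i j (yy p q z))) ∂(trip V) := by
    intro S
    rw [← mul_sub, hid S, integral_const_mul]
    ring
  simp only [h3]
  rw [← Finset.mul_sum, ← integral_finsetSum]
  · refine mul_nonneg (by positivity) (integral_nonneg fun z => ?_)
    have h4 : ∑ S : Finset ι, φ S.card * (wt z * (∑ i, ∑ j, (⟪p i, p j⟫_ℝ - ⟪q i, q j⟫_ℝ) *
        mix (B S) i j (yy p q z))) = wt z * ∑ i, ∑ j, (⟪p i, p j⟫_ℝ - ⟪q i, q j⟫_ℝ) *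
        ∑ S : Finset ι, φ S.card * mix (B S) i j (yy p q z) := by
      simp only [Finset.mul_sum]
      rw [Finset.sum_comm]
      refine Finset.sum_congr rfl fun i _ => ?_
      rw [Finset.sum_comm]
      refine Finset.sum_congr rfl fun j _ => Finset.sum_congr rfl fun S _ => ?_
      ring
    change 0 ≤ ∑ S : Finset ι, _
    rw [h4]
    refine mul_nonneg (wt_nonneg z) (Finset.sum_nonneg fun i _ => Finset.sum_nonneg fun j _ => ?_)
    refine mul_nonneg_of_nonpos_of_nonpos (sub_nonpos.mpr (hpq i j)) ?_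
    rcases eq_or_ne i j with rfl | hij
    · simp [mix]
    · have hy : ∀ l, |yy p q z l| ≤ R := by
        intro l
        have ha : |⟪p l, (z.2.1 : V)⟫_ℝ| ≤ R := by
          refine (abs_real_inner_le_norm _ _).trans ?_
          have : ‖(z.2.1 : V)‖ = 1 := by simp
          rw [this, mul_one]
          exact hR l
        have hb : |⟪q l, (z.2.2 : V)⟫_ℝ| ≤ R := by
          refine (abs_real_inner_le_norm _ _).trans ?_
          have : ‖(z.2.2 : V)‖ = 1 := by simp
          rw [this, mul_one, hn l]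
          exact hR l
        have ht0 := z.1.2.1
        have ht1 := z.1.2.2
        unfold yy
        rw [abs_le] at ha hb ⊢
        constructor <;> nlinarith
      have h5 : ∑ S : Finset ι, φ S.card * mix (B S) i j (yy p q z) =
          (dP (A i) (yy p q z i) * dP (A j) (yy p q z j)) * ∑ S : Finset ι, φ S.card *
            ((if i ∈ S then (1 : ℝ) else -1) * (if j ∈ S then (1 : ℝ) else -1) *
              ∏ l ∈ (Finset.univ.erase i).erase j,
                (if l ∈ S then (A l).eval (Real.exp (yy p q z l)) else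
                  1 - (A l).eval (Real.exp (yy p q z l)))) := by
        rw [Finset.mul_sum]
        refine Finset.sum_congr rfl fun S _ => ?_
        unfold mix
        rw [if_neg hij]
        simp only [hBe, hBd]
        ring
      rw [h5]
      refine mul_nonpos_of_nonneg_of_nonpos (mul_nonneg (hd i _ (hy i)) (hd j _ (hy j))) ?_
      exact sum_sign_nonpos φ hφ _ (fun l => h0 l _ (hy l)) (fun l => h1 l _ (hy l)) i j hij
  · intro S _
    refine integrable_of_continuous _ (continuous_const.mul ((continuous_wt (V := V)).mul ?_))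
    refine continuous_finsetSum _ fun i _ => continuous_finsetSum _ fun j _ => ?_
    exact continuous_const.mul (hmixc S i j)

/-- The integer `M` of the approximation. -/
noncomputable def MM (R c : ℝ) (N : ℕ) : ℕ := ⌈Real.exp ((N : ℝ) * (R + |c|))⌉₊

theorem MM_pos (R c : ℝ) (N : ℕ) : 0 < MM R c N := Nat.ceil_pos.mpr (Real.exp_pos _)

theorem le_MM (R c : ℝ) (N : ℕ) : Real.exp ((N : ℝ) * (R + |c|)) ≤ MM R c N := Nat.le_ceil _

/-- The approximating polynomial. -/
noncomputable def AA (R c : ℝ) (N : ℕ) : Polynomial ℝ :=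
  1 - (1 - Polynomial.C (Real.exp (-((N : ℝ) * c)) / MM R c N) * Polynomial.X ^ N) ^ (MM R c N)

theorem AA_eval (R c : ℝ) (N : ℕ) (s : ℝ) : (AA R c N).eval (Real.exp s) =
    1 - (1 - Real.exp ((N : ℝ) * (s - c)) / MM R c N) ^ (MM R c N) := by
  unfold AA
  simp only [Polynomial.eval_sub, Polynomial.eval_one, Polynomial.eval_pow, Polynomial.eval_mul,
    Polynomial.eval_C, Polynomial.eval_X]
  have h1 : Real.exp (-((N : ℝ) * c)) / MM R c N * Real.exp s ^ N =
      Real.exp ((N : ℝ) * (s - c)) / MM R c N := by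
    rw [← Real.exp_nat_mul, div_mul_eq_mul_div, ← Real.exp_add]
    congr 2
    ring
  rw [h1]

theorem ratio_le_one {R c s : ℝ} (hs : |s| ≤ R) (N : ℕ) :
    Real.exp ((N : ℝ) * (s - c)) / MM R c N ≤ 1 := by
  have hM : (0 : ℝ) < MM R c N := by exact_mod_cast MM_pos R c N
  rw [div_le_one hM]
  refine le_trans (Real.exp_le_exp.mpr ?_) (le_MM R c N)
  have h1 : s - c ≤ R + |c| := by
    have ha := (abs_le.mp hs).2
    have hb := neg_abs_le c
    linarith
  exact mul_le_mul_of_nonneg_left h1 (Nat.cast_nonneg N)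

theorem ratio_nonneg (R c s : ℝ) (N : ℕ) : 0 ≤ Real.exp ((N : ℝ) * (s - c)) / MM R c N :=
  div_nonneg (Real.exp_pos _).le (Nat.cast_nonneg _)

theorem AA_nonneg {R c s : ℝ} (hs : |s| ≤ R) (N : ℕ) : 0 ≤ (AA R c N).eval (Real.exp s) := by
  rw [AA_eval, sub_nonneg]
  refine pow_le_one₀ (sub_nonneg.mpr (ratio_le_one hs N)) ?_
  have := ratio_nonneg R c s N
  linarith

theorem AA_le_one {R c s : ℝ} (hs : |s| ≤ R) (N : ℕ) : (AA R c N).eval (Real.exp s) ≤ 1 := by
  rw [AA_eval, sub_le_self_iff]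
  exact pow_nonneg (sub_nonneg.mpr (ratio_le_one hs N)) _

theorem dP_AA_nonneg {R c s : ℝ} (hs : |s| ≤ R) (N : ℕ) : 0 ≤ dP (AA R c N) s := by
  have h1 : Polynomial.derivative (AA R c N) =
      Polynomial.C (MM R c N : ℝ) * (1 - Polynomial.C (Real.exp (-((N : ℝ) * c)) / MM R c N) *
        Polynomial.X ^ N) ^ (MM R c N - 1) *
        (Polynomial.C (Real.exp (-((N : ℝ) * c)) / MM R c N) *
          (Polynomial.C (N : ℝ) * Polynomial.X ^ (N - 1))) := by
    unfold AA
    rw [Polynomial.derivative_sub, Polynomial.derivative_one, Polynomial.derivative_pow,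
      Polynomial.derivative_sub, Polynomial.derivative_one, Polynomial.derivative_mul,
      Polynomial.derivative_C, Polynomial.derivative_X_pow]
    ring
  unfold dP
  rw [h1]
  simp only [Polynomial.eval_sub, Polynomial.eval_one, Polynomial.eval_pow, Polynomial.eval_mul,
    Polynomial.eval_C, Polynomial.eval_X]
  have h2 : Real.exp (-((N : ℝ) * c)) / MM R c N * Real.exp s ^ N =
      Real.exp ((N : ℝ) * (s - c)) / MM R c N := by
    rw [← Real.exp_nat_mul, div_mul_eq_mul_div, ← Real.exp_add]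
    congr 2
    ring
  rw [h2]
  have h3 := sub_nonneg.mpr (ratio_le_one (c := c) hs N)
  positivity

theorem AA_tendsto_zero {R c s : ℝ} (hs : |s| ≤ R) (h : s < c) :
    Tendsto (fun N => (AA R c N).eval (Real.exp s)) atTop (𝓝 0) := by
  have h1 : Tendsto (fun N : ℕ => Real.exp ((N : ℝ) * (s - c))) atTop (𝓝 0) := by
    refine Real.tendsto_exp_atBot.comp ?_
    exact tendsto_natCast_atTop_atTop.atTop_mul_const_of_neg (sub_neg.mpr h)
  refine tendsto_of_tendsto_of_tendsto_of_le_of_le tendsto_const_nhds h1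
    (fun N => AA_nonneg hs N) fun N => ?_
  simp only [AA_eval]
  have hM : (0 : ℝ) < MM R c N := by exact_mod_cast MM_pos R c N
  have h2 := one_add_mul_le_pow (a := -(Real.exp ((N : ℝ) * (s - c)) / MM R c N))
    (by have := ratio_le_one (c := c) hs N; linarith) (MM R c N)
  have h3 : (MM R c N : ℝ) * -(Real.exp ((N : ℝ) * (s - c)) / MM R c N) =
      -Real.exp ((N : ℝ) * (s - c)) := by
    field_simp
  rw [h3, ← sub_eq_add_neg, ← sub_eq_add_neg] at h2
  linarith

theorem AA_tendsto_one {R c s : ℝ} (hs : |s| ≤ R) (h : c < s) :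
    Tendsto (fun N => (AA R c N).eval (Real.exp s)) atTop (𝓝 1) := by
  have h1 : Tendsto (fun N : ℕ => Real.exp (-Real.exp ((N : ℝ) * (s - c)))) atTop (𝓝 0) := by
    refine Real.tendsto_exp_atBot.comp (tendsto_neg_atTop_atBot.comp
      (Real.tendsto_exp_atTop.comp ?_))
    exact tendsto_natCast_atTop_atTop.atTop_mul_const (sub_pos.mpr h)
  have h2 : Tendsto (fun N : ℕ => 1 - Real.exp (-Real.exp ((N : ℝ) * (s - c)))) atTop
      (𝓝 1) := by
    simpa using h1.const_sub 1
  refine tendsto_of_tendsto_of_tendsto_of_le_of_le h2 tendsto_const_nhds (fun N => ?_)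
    (fun N => AA_le_one hs N)
  simp only [AA_eval]
  have hM : (0 : ℝ) < MM R c N := by exact_mod_cast MM_pos R c N
  have h3 : (1 - Real.exp ((N : ℝ) * (s - c)) / MM R c N) ^ (MM R c N) ≤
      Real.exp (-Real.exp ((N : ℝ) * (s - c))) := by
    have h4 : 1 - Real.exp ((N : ℝ) * (s - c)) / MM R c N ≤
        Real.exp (-(Real.exp ((N : ℝ) * (s - c)) / MM R c N)) :=
      Real.one_sub_le_exp_neg _
    refine (pow_le_pow_left₀ (sub_nonneg.mpr (ratio_le_one hs N)) h4 _).trans ?_
    rw [← Real.exp_nat_mul]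
    refine Real.exp_le_exp.mpr (le_of_eq ?_)
    field_simp
  linarith

/-- The inequality on the sphere. -/
theorem sphere_step (hV : Module.finrank ℝ V = 3) (φ : ℕ → ℝ)
    (hφ : ∀ k, φ (k + 2) - 2 * φ (k + 1) + φ k ≤ 0) (p q : ι → V)
    (hn : ∀ i, ‖q i‖ = ‖p i‖) (hpq : ∀ i j, ⟪p i, p j⟫_ℝ ≤ ⟪q i, q j⟫_ℝ) (t : ι → ℝ)
    (hp0 : ∀ i, ∀ᵐ u : sphere (0 : V) 1 ∂(sig V), ⟪p i, (u : V)⟫_ℝ ≠ t i)
    (hq0 : ∀ i, ∀ᵐ u : sphere (0 : V) 1 ∂(sig V), ⟪q i, (u : V)⟫_ℝ ≠ t i) :
    ∫ u : sphere (0 : V) 1, φ (Finset.univ.filter (fun i => t i ≤ ⟪q i, (u : V)⟫_ℝ)).card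
        ∂(sig V) ≤
      ∫ u : sphere (0 : V) 1, φ (Finset.univ.filter (fun i => t i ≤ ⟪p i, (u : V)⟫_ℝ)).card
        ∂(sig V) := by
  obtain ⟨R, hR⟩ : ∃ R : ℝ, ∀ i, ‖p i‖ ≤ R := by
    refine ⟨∑ i, ‖p i‖, fun i => ?_⟩
    exact Finset.single_le_sum (f := fun i => ‖p i‖) (fun _ _ => norm_nonneg _)
      (Finset.mem_univ i)
  have hlim : ∀ r : ι → V, (∀ i, ‖r i‖ ≤ R) →
      (∀ i, ∀ᵐ u : sphere (0 : V) 1 ∂(sig V), ⟪r i, (u : V)⟫_ℝ ≠ t i) →
      Tendsto (fun N => ∫ u, mul φ (fun l => (AA R (t l) N).eval (Real.exp (ys r u l))) ∂(sig V))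
        atTop (𝓝 (∫ u : sphere (0 : V) 1,
          φ (Finset.univ.filter (fun i => t i ≤ ⟪r i, (u : V)⟫_ℝ)).card ∂(sig V))) := by
    intro r hr h0
    have hys : ∀ (u : sphere (0 : V) 1) l, |ys r u l| ≤ R := by
      intro u l
      unfold ys
      refine (abs_real_inner_le_norm _ _).trans ?_
      have : ‖(u : V)‖ = 1 := by simp
      rw [this, mul_one]
      exact hr l
    refine tendsto_integral_of_dominated_convergence
      (bound := fun _ => ∑ S : Finset ι, |φ S.card|) ?_ (integrable_const _) ?_ ?_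
    · intro N
      refine Continuous.aestronglyMeasurable ?_
      refine (continuous_mul φ).comp (continuous_pi fun l => ?_)
      have hc : Continuous fun u : sphere (0 : V) 1 => ys r u l :=
        (continuous_apply l).comp (continuous_ys r)
      exact (AA R (t l) N).continuous.comp (Real.continuous_exp.comp hc)
    · intro N
      refine Eventually.of_forall fun u => ?_
      rw [Real.norm_eq_abs]
      exact abs_mul_le φ (fun l => AA_nonneg (hys u l) N) (fun l => AA_le_one (hys u l) N)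
    · filter_upwards [eventually_countable_forall.mpr h0] with u hu
      rw [← mul_indicator φ]
      refine ((continuous_mul φ).tendsto _).comp (tendsto_pi_nhds.mpr fun l => ?_)
      rcases lt_or_gt_of_ne (hu l) with h | h
      · have h1 : l ∉ Finset.univ.filter (fun i => t i ≤ ⟪r i, (u : V)⟫_ℝ) := by
          simpa using h
        rw [if_neg h1]
        exact AA_tendsto_zero (hys u l) h
      · have h1 : l ∈ Finset.univ.filter (fun i => t i ≤ ⟪r i, (u : V)⟫_ℝ) := by
          simpa using h.le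
        rw [if_pos h1]
        exact AA_tendsto_one (hys u l) h
  refine le_of_tendsto_of_tendsto' (hlim q (fun i => (hn i).trans_le (hR i)) hq0) (hlim p hR hp0)
    fun N => ?_
  exact smooth_le hV φ hφ p q hn hpq hR (fun l => AA R (t l) N)
    (fun i s hs => AA_nonneg hs N) (fun i s hs => AA_le_one hs N)
    (fun i s hs => dP_AA_nonneg hs N)

end Pool.Agent.KneserCentre
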